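import Pool.Agent.Y738.DN.Arveson

set_option maxHeartbeats 4000000
set_option linter.unusedSectionVars false

open scoped InnerProductSpace Topology ComplexConjugate

namespace Pool.Agent.Y738.DN

open DC

variable {H : Type*} [NormedAddCommGroup H] [InnerProductSpace ℂ H] [CompleteSpace H]

/-- bounded distance from the algebra of the generated lattice -/
def DistBd (G : Set (H →L[ℂ] H)) (K : ℝ) : Prop :=
  ∀ (T : H →L[ℂ] H) (β : ℝ), 0 < β → (∀ Q ∈ generated G, ‖(1 - Q) * T * Q‖ ≤ β) →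
    ∃ A ∈ AlgOf (generated G), ‖T - A‖ ≤ K * β

theorem fam_of_chain {N : Set (H →L[ℂ] H)} (hp : ∀ P ∈ N, IsStarProjection P)
    (htot : ∀ P ∈ N, ∀ Q ∈ N, P * Q = P ∨ Q * P = Q) : IsFam N := by
  refine ⟨hp, fun P hP Q hQ => ?_⟩
  rcases htot P hP Q hQ with h | h
  · rw [h, le_symm (hp P hP) (hp Q hQ) h]
  · rw [h, le_symm (hp Q hQ) (hp P hP) h]

theorem distBd_chain {N : Set (H →L[ℂ] H)} (hp : ∀ P ∈ N, IsStarProjection P)
    (htot : ∀ P ∈ N, ∀ Q ∈ N, P * Q = P ∨ Q * P = Q) : DistBd N 2 := by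
  intro T β hβ hT
  have hc : (0 : ℝ) < (2 * β)⁻¹ := by positivity
  set c : ℂ := (((2 * β)⁻¹ : ℝ) : ℂ) with hcdef
  have hcn : ‖c‖ = (2 * β)⁻¹ := by
    rw [hcdef, Complex.norm_real, Real.norm_of_nonneg hc.le]
  have hc0 : c ≠ 0 := by
    rw [hcdef]; exact_mod_cast hc.ne'
  obtain ⟨A, hA, hTA⟩ := arveson hp htot (T := c • T) (t := 1 / 2) (by norm_num) (by
    intro P hP
    have h1 : (1 - P) * (c • T) * P = c • ((1 - P) * T * P) := by
      rw [mul_smul_comm, smul_mul_assoc]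
    rw [h1, norm_smul, hcn]
    have h2 := hT P (sub_generated N hP)
    calc (2 * β)⁻¹ * ‖(1 - P) * T * P‖ ≤ (2 * β)⁻¹ * β := by gcongr
      _ = 1 / 2 := by field_simp)
  refine ⟨c⁻¹ • A, ?_, ?_⟩
  · refine gen_alg (fam_of_chain hp htot) fun P hP => ?_
    rw [smul_mul_assoc, mul_smul_comm, smul_mul_assoc, ← hA P hP]
  · have h1 : T - c⁻¹ • A = c⁻¹ • (c • T - A) := by
      rw [smul_sub, smul_smul, inv_mul_cancel₀ hc0, one_smul]
    rw [h1, norm_smul, norm_inv, hcn, inv_inv]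
    calc 2 * β * ‖c • T - A‖ ≤ 2 * β * 1 := by gcongr
      _ = 2 * β := mul_one _

theorem alg_conj {G : Set (H →L[ℂ] H)} {A B C : H →L[ℂ] H} (hA : A ∈ AlgOf G)
    (hB : ∀ Q ∈ G, B * Q = Q * B) (hC : ∀ Q ∈ G, C * Q = Q * C) : B * A * C ∈ AlgOf G := by
  intro Q hQ
  calc B * A * C * Q = B * (A * Q) * C := by rw [mul_assoc (B * A), hC Q hQ]; simp only [mul_assoc]
    _ = B * (Q * A * Q) * C := by rw [hA Q hQ]
    _ = (B * Q) * A * (Q * C) := by simp only [mul_assoc]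
    _ = (Q * B) * A * (C * Q) := by rw [hB Q hQ, hC Q hQ]
    _ = Q * (B * A * C) * Q := by simp only [mul_assoc]

theorem alg_add {G : Set (H →L[ℂ] H)} {A B : H →L[ℂ] H} (hA : A ∈ AlgOf G) (hB : B ∈ AlgOf G) :
    A + B ∈ AlgOf G := by
  intro Q hQ
  rw [add_mul, hA Q hQ, hB Q hQ, mul_add, add_mul]

theorem generated_mono {G G' : Set (H →L[ℂ] H)} (h : G ⊆ G') : generated G ⊆ generated G' :=
  fun _ hP L hL hGL => hP L hL (h.trans hGL)

theorem norm_mul3 {B T C : H →L[ℂ] H} {β : ℝ} (hB : ‖B‖ ≤ 1) (hC : ‖C‖ ≤ 1) (hT : ‖T‖ ≤ β) :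
    ‖B * T * C‖ ≤ β := by
  have h1 := norm_mul_le (B * T) C
  have h2 := norm_mul_le B T
  have h3 := norm_nonneg T
  have h4 := norm_nonneg B
  have h5 := norm_nonneg C
  have h6 : ‖B‖ * ‖T‖ ≤ 1 * β := mul_le_mul hB hT h3 zero_le_one
  have h7 : ‖B * T‖ * ‖C‖ ≤ β * 1 := by
    refine mul_le_mul (by linarith) hC h5 (by linarith)
  linarith

theorem blk {P R T A : H →L[ℂ] H} (hP : P * P = P) (hR : R * R = R) :
    P * (P * T * R - A) * R = P * T * R - P * A * R := by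
  rw [mul_sub P, sub_mul, ← mul_assoc, ← mul_assoc, hP, mul_assoc (P * T), hR]

theorem distBd_insert {G : Set (H →L[ℂ] H)} {P0 : H →L[ℂ] H} (hG' : IsFam (insert P0 G))
    {K : ℝ} (h : DistBd G K) : DistBd (insert P0 G) (1 + 3 * K) := by
  have hG : IsFam G := ⟨fun P hP => hG'.proj P (Set.mem_insert_of_mem _ hP), fun P hP Q hQ =>
    hG'.comm P (Set.mem_insert_of_mem _ hP) Q (Set.mem_insert_of_mem _ hQ)⟩
  have hP0 : IsStarProjection P0 := hG'.proj P0 (Set.mem_insert _ _)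
  have hc : ∀ Q ∈ G, P0 * Q = Q * P0 := fun Q hQ =>
    hG'.comm P0 (Set.mem_insert _ _) Q (Set.mem_insert_of_mem _ hQ)
  have hcg := generated_comm hG hc
  have hcsl' := generated_csl hG'
  have hcsl := generated_csl hG
  have hP0g : P0 ∈ generated (insert P0 G) := sub_generated _ (Set.mem_insert _ _)
  have hmono : generated G ⊆ generated (insert P0 G) := generated_mono (Set.subset_insert _ _)
  have hPP : P0 * P0 = P0 := hP0.isIdempotentElem
  have n0 := sp_opNorm hP0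
  have n1 := sp_opNorm hP0.one_sub
  have hc1 : ∀ Q ∈ generated G, (1 - P0) * Q = Q * (1 - P0) := by
    intro Q hQ
    rw [sub_mul, mul_sub, one_mul, mul_one, hcg Q hQ]
  intro T β hβ hT
  have b11 : ∀ Q ∈ generated G, ‖(1 - Q) * (P0 * T * P0) * Q‖ ≤ β := by
    intro Q hQ
    have hQQ : Q * Q = Q := (hcsl.proj Q hQ).isIdempotentElem
    have h1 := hT (Q * P0) (hcsl'.inf_mem Q (hmono hQ) P0 hP0g)
    have e1 : (1 - Q) * (1 - Q * P0) = 1 - Q := by
      have : Q * (Q * P0) = Q * P0 := by rw [← mul_assoc, hQQ]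
      rw [mul_sub, sub_mul, sub_mul, one_mul, this, mul_one, one_mul]; abel
    have e2 : (1 - Q) * P0 = P0 * (1 - Q) := by
      rw [sub_mul, mul_sub, one_mul, mul_one, hcg Q hQ]
    have e3 : (1 - Q) * (P0 * T * P0) * Q = (P0 * (1 - Q)) * ((1 - Q * P0) * T * (Q * P0)) * 1 := by
      calc (1 - Q) * (P0 * T * P0) * Q = ((1 - Q) * P0) * T * (P0 * Q) := by
            simp only [mul_assoc]
        _ = (P0 * (1 - Q)) * T * (Q * P0) := by rw [e2, hcg Q hQ]
        _ = (P0 * ((1 - Q) * (1 - Q * P0))) * T * (Q * P0) := by rw [e1]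
        _ = (P0 * (1 - Q)) * ((1 - Q * P0) * T * (Q * P0)) * 1 := by
            rw [mul_one]; simp only [mul_assoc]
    rw [e3]
    refine norm_mul3 ?_ ?_ h1
    · have := norm_mul_le P0 (1 - Q)
      have h3 := sp_opNorm (hcsl.proj Q hQ).one_sub
      have h4 := norm_nonneg (1 - Q)
      have h5 := norm_nonneg P0
      nlinarith
    · exact sp_opNorm (IsStarProjection.one _)
  have b12 : ∀ Q ∈ generated G, ‖(1 - Q) * (P0 * T * (1 - P0)) * Q‖ ≤ β := by
    intro Q hQ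
    have h1 := hT Q (hmono hQ)
    have e2 : (1 - Q) * P0 = P0 * (1 - Q) := by
      rw [sub_mul, mul_sub, one_mul, mul_one, hcg Q hQ]
    have e3 : (1 - Q) * (P0 * T * (1 - P0)) * Q = P0 * ((1 - Q) * T * Q) * (1 - P0) := by
      calc (1 - Q) * (P0 * T * (1 - P0)) * Q = ((1 - Q) * P0) * T * ((1 - P0) * Q) := by
            simp only [mul_assoc]
        _ = (P0 * (1 - Q)) * T * (Q * (1 - P0)) := by rw [e2, hc1 Q hQ]
        _ = _ := by simp only [mul_assoc]
    rw [e3]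
    exact norm_mul3 n0 n1 h1
  have b22 : ∀ Q ∈ generated G, ‖(1 - Q) * ((1 - P0) * T * (1 - P0)) * Q‖ ≤ β := by
    intro Q hQ
    have h1 := hT Q (hmono hQ)
    have e2 : (1 - Q) * (1 - P0) = (1 - P0) * (1 - Q) := by
      rw [sub_mul 1 Q, mul_sub _ 1 Q, one_mul, mul_one, hc1 Q hQ]
    have e3 : (1 - Q) * ((1 - P0) * T * (1 - P0)) * Q = (1 - P0) * ((1 - Q) * T * Q) * (1 - P0) := by
      calc (1 - Q) * ((1 - P0) * T * (1 - P0)) * Q = ((1 - Q) * (1 - P0)) * T * ((1 - P0) * Q) := by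
            simp only [mul_assoc]
        _ = ((1 - P0) * (1 - Q)) * T * (Q * (1 - P0)) := by rw [e2, hc1 Q hQ]
        _ = _ := by simp only [mul_assoc]
    rw [e3]
    exact norm_mul3 n1 n1 h1
  obtain ⟨A11, hA11, h11⟩ := h _ β hβ b11
  obtain ⟨A12, hA12, h12⟩ := h _ β hβ b12
  obtain ⟨A22, hA22, h22⟩ := h _ β hβ b22
  have hc1' : ∀ Q ∈ G, (1 - P0) * Q = Q * (1 - P0) := fun Q hQ => hc1 Q (sub_generated G hQ)
  have hr : ∀ A ∈ AlgOf (generated G), A ∈ AlgOf G := fun A hA Q hQ => hA Q (sub_generated G hQ)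
  refine ⟨P0 * A11 * P0 + P0 * A12 * (1 - P0) + (1 - P0) * A22 * (1 - P0), ?_, ?_⟩
  · refine gen_alg hG' ?_
    intro Q hQ
    rcases Set.mem_insert_iff.1 hQ with rfl | hQ
    · have e1 : (1 - Q) * Q = 0 := by rw [sub_mul, one_mul, hPP, sub_self]
      have e2 : (Q * A11 * Q + Q * A12 * (1 - Q) + (1 - Q) * A22 * (1 - Q)) * Q = Q * A11 * Q := by
        rw [add_mul, add_mul, mul_assoc (Q * A12), mul_assoc ((1 - Q) * A22), e1, mul_zero, mul_zero,
          add_zero, add_zero, mul_assoc (Q * A11), hPP]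
      have e3 : Q * (Q * A11 * Q + Q * A12 * (1 - Q) + (1 - Q) * A22 * (1 - Q)) * Q =
          Q * ((Q * A11 * Q + Q * A12 * (1 - Q) + (1 - Q) * A22 * (1 - Q)) * Q) := mul_assoc _ _ _
      rw [e3, e2, ← mul_assoc, ← mul_assoc, hPP]
    · exact alg_add (alg_add (alg_conj (hr _ hA11) hc hc) (alg_conj (hr _ hA12) hc hc1'))
        (alg_conj (hr _ hA22) hc1' hc1') Q hQ
  · have h21 := hT P0 hP0g
    have hQ1 : (1 - P0) * (1 - P0) = 1 - P0 := hP0.one_sub.isIdempotentElem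
    have g11 : ‖P0 * (P0 * T * P0 - A11) * P0‖ ≤ K * β := norm_mul3 n0 n0 h11
    have g12 : ‖P0 * (P0 * T * (1 - P0) - A12) * (1 - P0)‖ ≤ K * β := norm_mul3 n0 n1 h12
    have g22 : ‖(1 - P0) * ((1 - P0) * T * (1 - P0) - A22) * (1 - P0)‖ ≤ K * β :=
      norm_mul3 n1 n1 h22
    have e11 := blk (T := T) (A := A11) hPP hPP
    have e12 := blk (T := T) (A := A12) hPP hQ1
    have e22 := blk (T := T) (A := A22) hQ1 hQ1
    have hsum : T - (P0 * A11 * P0 + P0 * A12 * (1 - P0) + (1 - P0) * A22 * (1 - P0)) =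
        (1 - P0) * T * P0 + P0 * (P0 * T * P0 - A11) * P0 +
          P0 * (P0 * T * (1 - P0) - A12) * (1 - P0) +
          (1 - P0) * ((1 - P0) * T * (1 - P0) - A22) * (1 - P0) := by
      rw [e11, e12, e22]
      have : T = (1 - P0) * T * P0 + P0 * T * P0 + P0 * T * (1 - P0) + (1 - P0) * T * (1 - P0) := by
        simp only [sub_mul, mul_sub, one_mul, mul_one]; abel
      nth_rewrite 1 [this]
      abel
    rw [hsum]
    refine (norm_add_le _ _).trans ?_
    have k1 := norm_add_le ((1 - P0) * T * P0 + P0 * (P0 * T * P0 - A11) * P0)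
      (P0 * (P0 * T * (1 - P0) - A12) * (1 - P0))
    have k2 := norm_add_le ((1 - P0) * T * P0) (P0 * (P0 * T * P0 - A11) * P0)
    linarith

theorem distBd_union {G S : Set (H →L[ℂ] H)} (hS : S.Finite) (hG : IsFam (G ∪ S)) {K : ℝ}
    (hK : 0 ≤ K) (h : DistBd G K) : ∃ K' : ℝ, 0 ≤ K' ∧ DistBd (G ∪ S) K' := by
  induction S, hS using Set.Finite.induction_on with
  | empty => exact ⟨K, hK, by rwa [Set.union_empty]⟩
  | @insert a s _ _ ih =>
    rw [Set.union_insert] at hG ⊢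
    obtain ⟨K', hK', h'⟩ := ih ⟨fun P hP => hG.proj P (Set.mem_insert_of_mem _ hP),
      fun P hP Q hQ => hG.comm P (Set.mem_insert_of_mem _ hP) Q (Set.mem_insert_of_mem _ hQ)⟩
    exact ⟨1 + 3 * K', by positivity, distBd_insert hG h'⟩

theorem has_constant {G : Set (H →L[ℂ] H)} (hG : IsFam G) {K : ℝ} (hK : 0 ≤ K)
    (h : DistBd G K) : HasDistanceConstant (AlgOf (generated G)) := by
  refine ⟨K, fun T => ?_⟩
  have hcsl := generated_csl hG
  set s : ℝ := sSup {x : ℝ | ∃ P ∈ LatOf (AlgOf (generated G)), x = ‖(1 - P) * T * P‖} with hs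
  have hbdd : BddAbove {x : ℝ | ∃ P ∈ LatOf (AlgOf (generated G)), x = ‖(1 - P) * T * P‖} := by
    refine ⟨‖T‖, ?_⟩
    rintro x ⟨P, hP, rfl⟩
    exact norm_mul3 (sp_opNorm hP.1.one_sub) (sp_opNorm hP.1) le_rfl
  have hmem : ∀ Q ∈ generated G, ‖(1 - Q) * T * Q‖ ≤ s := by
    intro Q hQ
    exact le_csSup hbdd ⟨Q, ⟨hcsl.proj Q hQ, fun A hA => hA Q hQ⟩, rfl⟩
  have hs0 : 0 ≤ s := (norm_nonneg _).trans (hmem 0 hcsl.zero_mem)
  refine le_of_forall_pos_le_add fun ε hε => ?_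
  have hδ : 0 < ε / (K + 1) := by positivity
  obtain ⟨A, hA, hTA⟩ := h T (s + ε / (K + 1)) (by positivity) (fun Q hQ =>
    (hmem Q hQ).trans (by linarith))
  have h1 : Metric.infDist T (AlgOf (generated G)) ≤ dist T A := Metric.infDist_le_dist_of_mem hA
  rw [dist_eq_norm] at h1
  have h2 : K * (ε / (K + 1)) ≤ ε := by
    rw [mul_div_assoc', div_le_iff₀ (by positivity)]
    nlinarith
  calc Metric.infDist T (AlgOf (generated G)) ≤ K * (s + ε / (K + 1)) := h1.trans hTA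
    _ = K * s + K * (ε / (K + 1)) := by ring
    _ ≤ K * s + ε := by linarith

/-- **classification for independent commuting nests** -/
theorem constant_iff {ι : Type*} [Finite ι] {N : ι → Set (H →L[ℂ] H)} (hN : ∀ i, IsNst (N i))
    (hG : IsFam (⋃ i, N i)) (hI : Indep N) :
    HasDistanceConstant (AlgOf (generated (⋃ i, N i))) ↔
      ∀ a b, a ≠ b → (N a).Finite ∨ (N b).Finite := by
  constructor
  · intro h a b hab
    by_contra hcon
    push Not at hcon
    exact no_constant_indep hN hG hI hab hcon.1 hcon.2 h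
  · intro h
    by_cases hall : ∀ i, (N i).Finite
    · have hfin : (⋃ i, N i).Finite := Set.finite_iUnion hall
      have h1 : (∅ : Set (H →L[ℂ] H)) ∪ ⋃ i, N i = ⋃ i, N i := Set.empty_union _
      obtain ⟨K, hK, hK2⟩ := distBd_union (G := ∅) hfin (by rwa [h1]) (by norm_num : (0:ℝ) ≤ 2)
        (distBd_chain (fun P hP => absurd hP (Set.notMem_empty _))
          (fun P hP => absurd hP (Set.notMem_empty _)))
      rw [h1] at hK2
      exact has_constant hG hK hK2
    · push Not at hall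
      obtain ⟨i0, hi0⟩ := hall
      have hfin : (⋃ i : {i // i ≠ i0}, N i.1).Finite := by
        refine Set.finite_iUnion fun i => ?_
        rcases h i0 i.1 i.2.symm with h1 | h1
        · exact absurd h1 hi0
        · exact h1
      have h1 : N i0 ∪ (⋃ i : {i // i ≠ i0}, N i.1) = ⋃ i, N i := by
        ext P
        simp only [Set.mem_union, Set.mem_iUnion]
        constructor
        · rintro (h2 | ⟨i, hi⟩)
          · exact ⟨i0, h2⟩
          · exact ⟨i.1, hi⟩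
        · rintro ⟨i, hi⟩
          by_cases hii : i = i0
          · left; rw [← hii]; exact hi
          · right; exact ⟨⟨i, hii⟩, hi⟩
      obtain ⟨K, hK, hK2⟩ := distBd_union (G := N i0) hfin (by rwa [h1]) (by norm_num : (0:ℝ) ≤ 2)
        (distBd_chain (hN i0).proj (hN i0).total)
      rw [h1] at hK2
      exact has_constant hG hK hK2

end Pool.Agent.Y738.DN
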