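import Pool.Agent.Helper360.Dist.L2
import Pool.Agent.Y738.DN.Fin

set_option maxHeartbeats 4000000
set_option linter.unusedSectionVars false

open scoped InnerProductSpace Topology ComplexConjugate
open MeasureTheory

namespace Pool.Agent.Y738.DN

open DC

section Coord

variable {α : Type*} [MeasurableSpace α] {ν : Measure α} {ι : Type*}

/-- the nest of the spaces `{f : f = 0 a.e. on {g ≥ t}}` -/
def coordNest (ν : Measure α) (g : α → ℝ) : Set (Lp ℂ 2 ν →L[ℂ] Lp ℂ 2 ν) :=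
  {P | IsStarProjection P ∧ ∃ t ∈ Set.Icc (0 : ℝ) 1,
    ∀ f : Lp ℂ 2 ν, P f = f ↔ ∀ᵐ z ∂ν, t ≤ g z → f z = 0}

/-- the projection -/
noncomputable def cp (ν : Measure α) {g : α → ℝ} (hg : Measurable g) (t : ℝ) :
    Lp ℂ 2 ν →L[ℂ] Lp ℂ 2 ν :=
  jobE_P {z | g z < t} (measurableSet_lt hg measurable_const)

theorem mem_coord {g : α → ℝ} (hg : Measurable g) {P : Lp ℂ 2 ν →L[ℂ] Lp ℂ 2 ν} :
    P ∈ coordNest ν g ↔ ∃ t ∈ Set.Icc (0 : ℝ) 1, P = cp ν hg t := by
  have hf : ∀ (t : ℝ) (f : Lp ℂ 2 ν), cp ν hg t f = f ↔ ∀ᵐ z ∂ν, t ≤ g z → f z = 0 := by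
    intro t f
    unfold cp
    rw [jobE_fix]
    refine Filter.eventually_congr (Filter.Eventually.of_forall fun p => ?_)
    simp only [Set.mem_ofPred_eq, not_lt]
  constructor
  · rintro ⟨hP, t, ht, h⟩
    exact ⟨t, ht, jobE_unique hP (jobE_proj _ _) (fun f => (h f).trans (hf t f).symm)⟩
  · rintro ⟨t, ht, rfl⟩
    exact ⟨jobE_proj _ _, t, ht, hf t⟩

theorem cp_mul {g : α → ℝ} (hg : Measurable g) {s t : ℝ} (h : s ≤ t) :
    cp ν hg s * cp ν hg t = cp ν hg s := by
  unfold cp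
  rw [jobE_mul]
  exact jobE_congr _ _ (Set.inter_eq_left.mpr fun p hp => lt_of_lt_of_le hp h)

theorem cp_comm {g g' : α → ℝ} (hg : Measurable g) (hg' : Measurable g') (s t : ℝ) :
    cp ν hg s * cp ν hg' t = cp ν hg' t * cp ν hg s := by
  unfold cp
  rw [jobE_mul, jobE_mul]
  exact jobE_congr _ _ (Set.inter_comm _ _)

theorem coord_nst {g : α → ℝ} (hg : Measurable g) (h01 : ∀ᵐ z ∂ν, 0 ≤ g z ∧ g z < 1) :
    IsNst (coordNest ν g) := by
  refine ⟨fun P hP => hP.1, ?_, ?_, ?_⟩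
  · rw [mem_coord hg]
    refine ⟨0, ⟨le_rfl, zero_le_one⟩, ContinuousLinearMap.ext fun f => ?_⟩
    symm
    refine jobE_zero _ _ f ?_
    filter_upwards [h01] with z hz hz'
    exact absurd hz.1 (not_le.2 hz')
  · rw [mem_coord hg]
    refine ⟨1, ⟨zero_le_one, le_rfl⟩, ContinuousLinearMap.ext fun f => ?_⟩
    symm
    change cp ν hg 1 f = f
    unfold cp
    rw [jobE_fix]
    filter_upwards [h01] with z hz hz'
    exact absurd hz.2 hz'
  · intro P hP Q hQ
    rw [mem_coord hg] at hP hQ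
    obtain ⟨s, _, rfl⟩ := hP
    obtain ⟨t, _, rfl⟩ := hQ
    rcases le_total s t with h | h
    · left; exact cp_mul hg h
    · right; exact cp_mul hg h

theorem coord_fam {g : ι → α → ℝ} (hg : ∀ i, Measurable (g i)) :
    IsFam (⋃ i, coordNest ν (g i)) := by
  refine ⟨?_, ?_⟩
  · intro P hP
    obtain ⟨i, hi⟩ := Set.mem_iUnion.1 hP
    exact hi.1
  · intro P hP Q hQ
    obtain ⟨i, hi⟩ := Set.mem_iUnion.1 hP
    obtain ⟨j, hj⟩ := Set.mem_iUnion.1 hQ
    rw [mem_coord (hg i)] at hi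
    rw [mem_coord (hg j)] at hj
    obtain ⟨s, _, rfl⟩ := hi
    obtain ⟨t, _, rfl⟩ := hj
    exact cp_comm _ _ _ _

theorem box_vec [Finite ι] {g : ι → α → ℝ} (hg : ∀ i, Measurable (g i)) {s t : ι → ℝ}
    (hbox : ν {z | ∀ i, s i ≤ g i z ∧ g i z < t i} ≠ 0 ∧
      ν {z | ∀ i, s i ≤ g i z ∧ g i z < t i} ≠ ⊤) :
    ∃ y : Lp ℂ 2 ν, y ≠ 0 ∧ ∀ i, cp ν (hg i) (s i) y = 0 ∧ cp ν (hg i) (t i) y = y := by
  set S : Set α := {z | ∀ i, s i ≤ g i z ∧ g i z < t i} with hSdef
  have hS : MeasurableSet S := by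
    have : S = ⋂ i, {z | s i ≤ g i z ∧ g i z < t i} := by
      ext z; simp [hSdef]
    rw [this]
    exact MeasurableSet.iInter fun i => (measurableSet_le measurable_const (hg i)).inter
      (measurableSet_lt (hg i) measurable_const)
  set y : Lp ℂ 2 ν := indicatorConstLp 2 hS hbox.2 (1 : ℂ) with hy
  have hyae : y =ᵐ[ν] S.indicator (fun _ => (1 : ℂ)) := indicatorConstLp_coeFn
  have hyn : ‖y‖ ≠ 0 := by
    rw [hy, norm_indicatorConstLp (by norm_num) (by norm_num), norm_one, one_mul]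
    have hpos : 0 < ν.real S := by
      rw [Measure.real]
      exact ENNReal.toReal_pos hbox.1 hbox.2
    exact (Real.rpow_pos_of_pos hpos _).ne'
  refine ⟨y, norm_ne_zero_iff.1 hyn, fun i => ⟨?_, ?_⟩⟩
  · refine jobE_zero _ _ y ?_
    filter_upwards [hyae] with z hz hz'
    rw [hz, Set.indicator_of_notMem]
    intro h
    exact absurd (h i).1 (not_le.2 hz')
  · unfold cp
    rw [jobE_fix]
    filter_upwards [hyae] with z hz hz'
    rw [hz, Set.indicator_of_notMem]
    intro h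
    exact hz' (h i).2

theorem coord_indep [Finite ι] {g : ι → α → ℝ} (hg : ∀ i, Measurable (g i))
    (hbox : ∀ s t : ι → ℝ, (∀ i, 0 ≤ s i ∧ s i < t i ∧ t i ≤ 1) →
      ν {z | ∀ i, s i ≤ g i z ∧ g i z < t i} ≠ 0 ∧
      ν {z | ∀ i, s i ≤ g i z ∧ g i z < t i} ≠ ⊤) :
    Indep (fun i => coordNest ν (g i)) := by
  intro A B hAB
  have h1 : ∀ i, ∃ s t : ℝ, 0 ≤ s ∧ s < t ∧ t ≤ 1 ∧ A i = cp ν (hg i) s ∧ B i = cp ν (hg i) t := by
    intro i
    obtain ⟨ha, hb, h2, h3⟩ := hAB i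
    rw [mem_coord (hg i)] at ha hb
    obtain ⟨s, hs, hsA⟩ := ha
    obtain ⟨t, ht, htB⟩ := hb
    refine ⟨s, t, hs.1, ?_, ht.2, hsA, htB⟩
    by_contra hcon
    push Not at hcon
    have h4 : B i * A i = B i := by rw [hsA, htB]; exact cp_mul (hg i) hcon
    refine h3 (nst_le_iff ?_ ?_ h2 h4)
    · rw [hsA]; exact jobE_proj _ _
    · rw [htB]; exact jobE_proj _ _
  choose s t h2 h3 h4 h5 h6 using h1
  obtain ⟨y, hy, hy2⟩ := box_vec hg (hbox s t fun i => ⟨h2 i, h3 i, h4 i⟩)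
  refine ⟨y, hy, fun i => ?_⟩
  rw [h5 i, h6 i]
  exact hy2 i

theorem coord_infinite [Finite ι] {g : ι → α → ℝ} (hg : ∀ i, Measurable (g i))
    (hbox : ∀ s t : ι → ℝ, (∀ i, 0 ≤ s i ∧ s i < t i ∧ t i ≤ 1) →
      ν {z | ∀ i, s i ≤ g i z ∧ g i z < t i} ≠ 0 ∧
      ν {z | ∀ i, s i ≤ g i z ∧ g i z < t i} ≠ ⊤) (i : ι) :
    (coordNest ν (g i)).Infinite := by
  classical
  have key : ∀ s t : ℝ, 0 ≤ s → s < t → t ≤ 1 → cp ν (hg i) s ≠ cp ν (hg i) t := by
    intro s t hs hst ht h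
    obtain ⟨y, hy, hy2⟩ := box_vec hg (hbox (Function.update (fun _ => 0) i s)
      (Function.update (fun _ => 1) i t) fun j => by
        by_cases hj : j = i
        · subst hj
          simp only [Function.update_self]
          exact ⟨hs, hst, ht⟩
        · simp only [Function.update_of_ne hj]
          norm_num)
    have h1 := hy2 i
    rw [Function.update_self, Function.update_self, h] at h1
    exact hy (h1.2.symm.trans h1.1)
  refine Set.infinite_of_injOn_mapsTo (f := fun t => cp ν (hg i) t) (s := Set.Icc (0:ℝ) 1) ?_ ?_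
    (Set.Icc_infinite zero_lt_one)
  · intro s hs t ht h
    rcases lt_trichotomy s t with h1 | h1 | h1
    · exact absurd h (key s t hs.1 h1 ht.2)
    · exact h1
    · exact absurd h.symm (key t s ht.1 h1 hs.2)
  · intro t ht
    rw [mem_coord (hg i)]
    exact ⟨t, ht, rfl⟩

/-- coordinate nests: a distance constant exists iff there is at most one coordinate -/
theorem coord_iff [Finite ι] {g : ι → α → ℝ} (hg : ∀ i, Measurable (g i))
    (h01 : ∀ i, ∀ᵐ z ∂ν, 0 ≤ g i z ∧ g i z < 1)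
    (hbox : ∀ s t : ι → ℝ, (∀ i, 0 ≤ s i ∧ s i < t i ∧ t i ≤ 1) →
      ν {z | ∀ i, s i ≤ g i z ∧ g i z < t i} ≠ 0 ∧
      ν {z | ∀ i, s i ≤ g i z ∧ g i z < t i} ≠ ⊤) :
    IsCSL (generated (⋃ i, coordNest ν (g i))) ∧
    (HasDistanceConstant (AlgOf (generated (⋃ i, coordNest ν (g i)))) ↔ Subsingleton ι) := by
  refine ⟨generated_csl (coord_fam hg), ?_⟩
  rw [constant_iff (fun i => coord_nst (hg i) (h01 i)) (coord_fam hg) (coord_indep hg hbox)]
  constructor
  · intro h
    refine ⟨fun a b => ?_⟩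
    by_contra hab
    rcases h a b hab with h1 | h1
    · exact coord_infinite hg hbox a h1
    · exact coord_infinite hg hbox b h1
  · intro h a b hab
    exact absurd (Subsingleton.elim a b) hab

end Coord

theorem mu01_Ico {a b : ℝ} (ha : 0 ≤ a) (hb : b ≤ 1) :
    mu01 (Set.Ico a b) = ENNReal.ofReal (b - a) := jobE_mu01 a b ha hb

theorem mu01_ae : ∀ᵐ x ∂mu01, 0 ≤ x ∧ x < 1 := by
  have h1 : ∀ᵐ x ∂mu01, x ∈ Set.Icc (0:ℝ) 1 := by
    unfold mu01
    exact ae_restrict_mem measurableSet_Icc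
  have h2 : ∀ᵐ x ∂mu01, x ≠ 1 := by
    unfold mu01
    refine ae_restrict_of_ae ?_
    exact Measure.ae_ne volume 1
  filter_upwards [h1, h2] with x hx hx'
  exact ⟨hx.1, lt_of_le_of_ne hx.2 hx'⟩

/-- the cube -/
theorem cube_iff (n : ℕ) :
    IsCSL (generated (⋃ i : Fin n, coordNest (Measure.pi (fun _ : Fin n => mu01))
      (fun z : Fin n → ℝ => z i))) ∧
    (HasDistanceConstant (AlgOf (generated (⋃ i : Fin n,
      coordNest (Measure.pi (fun _ : Fin n => mu01)) (fun z : Fin n → ℝ => z i)))) ↔ n ≤ 1) := by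
  have hg : ∀ i : Fin n, Measurable (fun z : Fin n → ℝ => z i) := fun i => measurable_pi_apply i
  have h := coord_iff (ν := Measure.pi (fun _ : Fin n => mu01))
    (g := fun i : Fin n => fun z : Fin n → ℝ => z i) hg (fun i => ?_) (fun s t hst => ?_)
  · refine ⟨h.1, h.2.trans ?_⟩
    rw [Fin.subsingleton_iff_le_one]
  · exact (Measure.quasiMeasurePreserving_eval (fun _ : Fin n => mu01) i).ae mu01_ae
  · have h1 : {z : Fin n → ℝ | ∀ i, s i ≤ z i ∧ z i < t i} =
        Set.univ.pi (fun i => Set.Ico (s i) (t i)) := by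
      ext z; simp [Set.mem_pi]
    rw [h1, Measure.pi_pi]
    have h2 : ∀ i, mu01 (Set.Ico (s i) (t i)) = ENNReal.ofReal (t i - s i) := fun i =>
      mu01_Ico (hst i).1 (hst i).2.2
    constructor
    · rw [Finset.prod_ne_zero_iff]
      intro i _
      rw [h2]
      have := (hst i).2.1
      simp only [ne_eq, ENNReal.ofReal_eq_zero, not_le]
      linarith
    · refine ENNReal.prod_ne_top fun i _ => ?_
      rw [h2]
      exact ENNReal.ofReal_ne_top

/-- the square with the product measure -/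
theorem square_no :
    IsCSL (generated (⋃ b : Bool, coordNest (mu01.prod mu01)
      (fun z : ℝ × ℝ => if b then z.1 else z.2))) ∧
    ¬ HasDistanceConstant (AlgOf (generated (⋃ b : Bool, coordNest (mu01.prod mu01)
      (fun z : ℝ × ℝ => if b then z.1 else z.2)))) := by
  have hg : ∀ b : Bool, Measurable (fun z : ℝ × ℝ => if b then z.1 else z.2) := by
    rintro (b | b)
    · simpa using measurable_snd
    · simpa using measurable_fst
  have h := coord_iff (ν := mu01.prod mu01)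
    (g := fun b : Bool => fun z : ℝ × ℝ => if b then z.1 else z.2) hg (fun b => ?_)
    (fun s t hst => ?_)
  · refine ⟨h.1, fun h2 => ?_⟩
    have h3 := h.2.1 h2
    exact absurd (Subsingleton.elim true false) (by decide)
  · rcases b with _ | _
    · have := (Measure.quasiMeasurePreserving_snd (μ := mu01) (ν := mu01)).ae mu01_ae
      simpa using this
    · have := (Measure.quasiMeasurePreserving_fst (μ := mu01) (ν := mu01)).ae mu01_ae
      simpa using this
  · have h1 : {z : ℝ × ℝ | ∀ b : Bool, s b ≤ (if b then z.1 else z.2) ∧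
        (if b then z.1 else z.2) < t b} = Set.Ico (s true) (t true) ×ˢ Set.Ico (s false) (t false) := by
      ext z
      simp only [Bool.forall_bool, Set.mem_ofPred_eq, Set.mem_prod, Set.mem_Ico]
      simp [and_comm]
    have e1 := hst true
    have e2 := hst false
    have h2 : (mu01.prod mu01) {z : ℝ × ℝ | ∀ b : Bool, s b ≤ (if b then z.1 else z.2) ∧
        (if b then z.1 else z.2) < t b} =
        ENNReal.ofReal (t true - s true) * ENNReal.ofReal (t false - s false) := by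
      rw [h1, Measure.prod_prod, mu01_Ico e1.1 e1.2.2, mu01_Ico e2.1 e2.2.2]
    rw [h2]
    constructor
    · refine mul_ne_zero ?_ ?_
      · simp only [ne_eq, ENNReal.ofReal_eq_zero, not_le]; linarith [e1.2.1]
      · simp only [ne_eq, ENNReal.ofReal_eq_zero, not_le]; linarith [e2.2.1]
    · exact ENNReal.mul_ne_top ENNReal.ofReal_ne_top ENNReal.ofReal_ne_top

end Pool.Agent.Y738.DN
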