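import Pool.Agent.Y738.DN.Parrott

set_option maxHeartbeats 4000000
set_option linter.unusedSectionVars false

open scoped InnerProductSpace Topology ComplexConjugate

namespace Pool.Agent.Y738.DN

open DC

variable {H : Type*} [NormedAddCommGroup H] [InnerProductSpace ℂ H] [CompleteSpace H]

theorem pyth {R : H →L[ℂ] H} (hR : IsStarProjection R) (x : H) :
    ‖x‖ ^ 2 = ‖R x‖ ^ 2 + ‖(1 - R) x‖ ^ 2 := by
  have h1 : x = R x + (1 - R) x := by
    change x = R x + (x - R x)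
    rw [add_sub_cancel]
  have h2 : inner ℂ (R x) ((1 - R) x) = (0 : ℂ) := by
    rw [sp_sym hR]
    change inner ℂ x (R (x - R x)) = 0
    rw [map_sub, sp_idem hR, sub_self, inner_zero_right]
  have h3 := @norm_add_sq ℂ H _ _ _ (R x) ((1 - R) x)
  rw [h2, map_zero, mul_zero, add_zero, ← h1] at h3
  exact h3

/-- one step of the completion -/
theorem step {T X R Q : H →L[ℂ] H} {t : ℝ} (ht : t < 1) (hR : IsStarProjection R)
    (hQ : IsStarProjection Q) (hRQ : R * Q = R) (hX : ‖X‖ ≤ 1) (hXR : X * R = X)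
    (hXT : (1 - R) * X * R = (1 - R) * T * R) (hT : ‖(1 - Q) * T * Q‖ ≤ t) :
    ∃ X' : H →L[ℂ] H, ‖X'‖ ≤ 1 ∧ X' * Q = X' ∧ (1 - Q) * X' * Q = (1 - Q) * T * Q ∧
      X' * R = X := by
  have hQR : Q * R = R := le_symm hR hQ hRQ
  have hRR : R * R = R := hR.isIdempotentElem
  have hQQ : Q * Q = Q := hQ.isIdempotentElem
  have h11 : (1 - Q) * (1 - R) = 1 - Q := by
    rw [mul_sub, mul_one, sub_mul, one_mul, hQR]; abel
  have hX1 : (1 - Q) * X = (1 - Q) * T * R := by
    calc (1 - Q) * X = (1 - Q) * (1 - R) * (X * R) := by rw [h11, hXR]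
      _ = (1 - Q) * ((1 - R) * X * R) := by simp only [mul_assoc]
      _ = (1 - Q) * ((1 - R) * T * R) := by rw [hXT]
      _ = (1 - Q) * T * R := by rw [← mul_assoc, ← mul_assoc, h11]
  set A : H →L[ℂ] H := Q * X with hA
  set C : H →L[ℂ] H := (1 - Q) * X with hC
  set B : H →L[ℂ] H := (1 - Q) * T * (Q - R) with hB
  have hCT : C = (1 - Q) * T * Q * R := by
    rw [hX1, mul_assoc _ Q R, hQR]
  have hn0 : 0 ≤ ‖(1 - Q) * T * Q‖ := norm_nonneg _
  have hCn : ‖C‖ < 1 := by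
    rw [hCT]
    have h1 := norm_mul_le ((1 - Q) * T * Q) R
    have h2 := sp_opNorm hR
    have h3 : ‖(1 - Q) * T * Q‖ * ‖R‖ ≤ t * 1 := mul_le_mul hT h2 (norm_nonneg _) (hn0.trans hT)
    linarith
  have hXu : ∀ u, ‖X u‖ ≤ ‖u‖ := fun u => by
    have := X.le_of_opNorm_le hX u
    rwa [one_mul] at this
  have hcol : ∀ u, ‖A u‖ ^ 2 + ‖C u‖ ^ 2 ≤ ‖u‖ ^ 2 := by
    intro u
    have h1 := pyth hQ (X u)
    have h2 : ‖X u‖ ^ 2 ≤ ‖u‖ ^ 2 := by
      have := hXu u
      gcongr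
    rw [h1] at h2
    exact h2
  have hBz : ∀ u v, C u + B v = ((1 - Q) * T * Q) (R u + (Q - R) v) := by
    intro u v
    rw [map_add]
    have e1 : C u = ((1 - Q) * T * Q) (R u) := by rw [hCT]; rfl
    have e2 : B v = ((1 - Q) * T * Q) ((Q - R) v) := by
      have : (1 - Q) * T * Q * (Q - R) = B := by
        rw [mul_assoc _ Q, mul_sub, hQQ, hQR]
      rw [← this]; rfl
    rw [e1, e2]
  have hz : ∀ u v, ‖R u + (Q - R) v‖ ^ 2 = ‖R u‖ ^ 2 + ‖(Q - R) v‖ ^ 2 := by
    intro u v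
    have h1 := pyth hR (R u + (Q - R) v)
    have e0 : R ((Q - R) v) = 0 := by
      have : R * (Q - R) = 0 := by rw [mul_sub, hRQ, hRR, sub_self]
      have h2 : (R * (Q - R)) v = 0 := by rw [this]; rfl
      exact h2
    have e1 : R (R u + (Q - R) v) = R u := by rw [map_add, sp_idem hR, e0, add_zero]
    have e2 : (1 - R) (R u + (Q - R) v) = (Q - R) v := by
      change (R u + (Q - R) v) - R (R u + (Q - R) v) = (Q - R) v
      rw [e1, add_sub_cancel_left]
    rw [e1, e2] at h1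
    exact h1
  have hQRn : ∀ v, ‖(Q - R) v‖ ≤ ‖v‖ := by
    intro v
    have : (Q - R) v = (1 - R) (Q v) := by
      have h2 : (1 - R) * Q = Q - R := by rw [sub_mul, one_mul, hRQ]
      rw [← h2]; rfl
    rw [this]
    exact (sp_norm hR.one_sub _).trans (sp_norm hQ v)
  have hrow : ∀ u v, ‖C u + B v‖ ^ 2 ≤ ‖u‖ ^ 2 + ‖v‖ ^ 2 := by
    intro u v
    rw [hBz]
    have h1 : ‖((1 - Q) * T * Q) (R u + (Q - R) v)‖ ≤ ‖R u + (Q - R) v‖ := by
      have := ((1 - Q) * T * Q).le_of_opNorm_le (hT.trans ht.le) (R u + (Q - R) v)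
      rwa [one_mul] at this
    have h2 : ‖((1 - Q) * T * Q) (R u + (Q - R) v)‖ ^ 2 ≤ ‖R u + (Q - R) v‖ ^ 2 := by gcongr
    rw [hz] at h2
    have h3 : ‖R u‖ ^ 2 ≤ ‖u‖ ^ 2 := by
      have := sp_norm hR u
      gcongr
    have h4 : ‖(Q - R) v‖ ^ 2 ≤ ‖v‖ ^ 2 := by
      have := hQRn v
      gcongr
    linarith
  obtain ⟨Z, hZ⟩ := parrott hCn hcol hrow
  have hBQ : B * Q = B := by
    have h2 : (Q - R) * Q = Q - R := by rw [sub_mul, hQQ, hRQ]
    rw [hB, mul_assoc, h2]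
  have hBR : B * R = 0 := by
    have h2 : (Q - R) * R = 0 := by rw [sub_mul, hQR, hRR, sub_self]
    rw [hB, mul_assoc, h2, mul_zero]
  have hXQ : X * Q = X := by rw [← hXR, mul_assoc, hRQ]
  refine ⟨X + B + A * (Z * B), ?_, ?_, ?_, ?_⟩
  · refine ContinuousLinearMap.opNorm_le_bound _ zero_le_one fun h => ?_
    rw [one_mul]
    have hQRv : (Q - R) ((Q - R) h) = (Q - R) h := by
      have : (Q - R) * (Q - R) = Q - R := by
        rw [mul_sub, sub_mul, sub_mul, hQQ, hRQ, hQR, hRR]; abel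
      have h2 : ((Q - R) * (Q - R)) h = (Q - R) h := by rw [this]
      exact h2
    have hBv : B ((Q - R) h) = B h := by
      change (1 - Q) (T ((Q - R) ((Q - R) h))) = (1 - Q) (T ((Q - R) h))
      rw [hQRv]
    have hXh : X (R h) = X h := by
      have h2 : (X * R) h = X h := by rw [hXR]
      exact h2
    have e0 : (X + B + A * (Z * B)) h = X (R h) + B ((Q - R) h) + A (Z (B ((Q - R) h))) := by
      rw [hBv, hXh]; rfl
    have hQB : ∀ v, Q (B v) = 0 := by
      intro v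
      have h2 : Q * (1 - Q) = 0 := by rw [mul_sub, mul_one, hQQ, sub_self]
      have h3 : (Q * (1 - Q)) ((T * (Q - R)) v) = 0 := by rw [h2]; rfl
      exact h3
    have hQA : ∀ v, Q (A v) = A v := by
      intro v
      exact sp_idem hQ (X v)
    have e1 : Q ((X + B + A * (Z * B)) h) = A (R h) + A (Z (B ((Q - R) h))) := by
      rw [e0, map_add, map_add, hQB, hQA, add_zero]; rfl
    have e2 : (1 - Q) ((X + B + A * (Z * B)) h) = C (R h) + B ((Q - R) h) := by
      have h3 : (1 - Q) ((X + B + A * (Z * B)) h) =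
          (X + B + A * (Z * B)) h - Q ((X + B + A * (Z * B)) h) := rfl
      have h4 : C (R h) = X (R h) - Q (X (R h)) := rfl
      have h5 : A (R h) = Q (X (R h)) := rfl
      rw [h3, e1, e0, h4, h5]
      abel
    have h6 := hZ (R h) ((Q - R) h)
    have h7 := pyth hQ ((X + B + A * (Z * B)) h)
    rw [e1, e2] at h7
    have h8 : ‖R h‖ ^ 2 + ‖(Q - R) h‖ ^ 2 ≤ ‖h‖ ^ 2 := by
      have h9 := pyth hR (Q h)
      have e3 : R (Q h) = R h := by
        have h2 : (R * Q) h = R h := by rw [hRQ]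
        exact h2
      have e4 : (1 - R) (Q h) = (Q - R) h := by
        change Q h - R (Q h) = Q h - R h
        rw [e3]
      rw [e3, e4] at h9
      rw [← h9]
      have := sp_norm hQ h
      gcongr
    have h10 : ‖(X + B + A * (Z * B)) h‖ ^ 2 ≤ ‖h‖ ^ 2 := by linarith
    exact le_of_sq_le_sq h10 (norm_nonneg _)
  · rw [add_mul, add_mul, hXQ, hBQ, mul_assoc A, mul_assoc Z, hBQ]
  · have hA0 : (1 - Q) * A = 0 := by
      rw [hA, ← mul_assoc, sub_mul, one_mul, hQQ, sub_self, zero_mul]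
    have hB0 : (1 - Q) * B = B := by
      have h2 : (1 - Q) * (1 - Q) = 1 - Q := hQ.one_sub.isIdempotentElem
      rw [hB, ← mul_assoc, ← mul_assoc, h2]
    have h3 : (1 - Q) * (X + B + A * (Z * B)) = C + B := by
      rw [mul_add, mul_add, ← mul_assoc _ A, hA0, zero_mul, add_zero, hB0]
    have h4 : C * Q = C := by rw [hC, mul_assoc, hXQ]
    rw [h3, add_mul, hBQ, h4, hX1, hB, mul_sub]
    abel
  · rw [add_mul, add_mul, hXR, hBR, mul_assoc A, mul_assoc Z, hBR, mul_zero, mul_zero, add_zero,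
      add_zero]

/-- the linear order of a nest -/
@[reducible]
noncomputable def nstOrder {N : Set (H →L[ℂ] H)} (hp : ∀ P ∈ N, IsStarProjection P)
    (ht : ∀ P ∈ N, ∀ Q ∈ N, P * Q = P ∨ Q * P = Q) : LinearOrder N where
  le P Q := P.1 * Q.1 = P.1
  lt P Q := P.1 * Q.1 = P.1 ∧ ¬ (Q.1 * P.1 = Q.1)
  le_refl P := (hp P.1 P.2).isIdempotentElem
  le_trans P Q R h1 h2 := by
    change P.1 * R.1 = P.1
    have h1' : P.1 * Q.1 = P.1 := h1
    have h2' : Q.1 * R.1 = Q.1 := h2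
    calc P.1 * R.1 = P.1 * Q.1 * R.1 := by rw [h1']
      _ = P.1 * (Q.1 * R.1) := mul_assoc _ _ _
      _ = P.1 := by rw [h2', h1']
  lt_iff_le_not_ge P Q := Iff.rfl
  le_antisymm P Q h1 h2 := Subtype.ext (nst_le_iff (hp P.1 P.2) (hp Q.1 Q.2) h1 h2)
  le_total P Q := ht P.1 P.2 Q.1 Q.2
  toDecidableLE := Classical.decRel _

/-- completion for finite subsets of a chain -/
theorem finite_completion {N : Set (H →L[ℂ] H)} (hp : ∀ P ∈ N, IsStarProjection P)
    (htot : ∀ P ∈ N, ∀ Q ∈ N, P * Q = P ∨ Q * P = Q) {T : H →L[ℂ] H} {t : ℝ} (ht : t < 1)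
    (hT : ∀ P ∈ N, ‖(1 - P) * T * P‖ ≤ t) (s : Finset N) :
    ∃ X : H →L[ℂ] H, ‖X‖ ≤ 1 ∧ ∀ P ∈ s, (1 - P.1) * X * P.1 = (1 - P.1) * T * P.1 := by
  letI := nstOrder hp htot
  suffices h : ∃ X R : H →L[ℂ] H, IsStarProjection R ∧ ‖X‖ ≤ 1 ∧ X * R = X ∧
      (∀ Q : H →L[ℂ] H, IsStarProjection Q → (∀ P ∈ s, P.1 * Q = P.1) → R * Q = R) ∧
      (∀ P ∈ s, P.1 * R = P.1) ∧ (1 - R) * X * R = (1 - R) * T * R ∧
      ∀ P ∈ s, (1 - P.1) * X * P.1 = (1 - P.1) * T * P.1 by
    obtain ⟨X, R, h1, h2, h3, h4, h5, h6, h7⟩ := h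
    exact ⟨X, h2, h7⟩
  induction s using Finset.induction_on_max with
  | empty =>
    exact ⟨0, 0, IsStarProjection.zero _, by simp, by simp, fun Q _ _ => by simp,
      fun P hP => by simp at hP, by simp, fun P hP => by simp at hP⟩
  | insert a s hmax ih =>
    obtain ⟨X, R, h1, h2, h3, h4, h5, h6, h7⟩ := ih
    have hQ := hp a.1 a.2
    have hlt : ∀ P ∈ s, P.1 * a.1 = P.1 := fun P hP => (hmax P hP).1
    have hRQ := h4 a.1 hQ hlt
    obtain ⟨X', g1, g2, g3, g4⟩ := step ht h1 hQ hRQ h2 h3 h6 (hT a.1 a.2)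
    refine ⟨X', a.1, hQ, g1, g2, fun Q _ hQ' => hQ' a (Finset.mem_insert_self _ _), ?_, g3, ?_⟩
    · intro P hP
      rcases Finset.mem_insert.1 hP with rfl | hP
      · exact hQ.isIdempotentElem
      · exact hlt P hP
    · intro P hP
      rcases Finset.mem_insert.1 hP with rfl | hP
      · exact g3
      · have hRP : R * P.1 = P.1 := le_symm (hp P.1 P.2) h1 (h5 P hP)
        have e1 : X' * P.1 = X * P.1 := by
          rw [← hRP, ← mul_assoc, g4, ← mul_assoc, h3]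
        rw [mul_assoc, e1, ← mul_assoc, h7 P hP]

/-- weak operator limits along ultrafilters -/
theorem exists_limit {ι : Type*} (U : Ultrafilter ι) (X : ι → (H →L[ℂ] H)) (hX : ∀ s, ‖X s‖ ≤ 1) :
    ∃ Y : H →L[ℂ] H, ‖Y‖ ≤ 1 ∧
      ∀ x y, Filter.Tendsto (fun s => inner ℂ x (X s y)) U (𝓝 (inner ℂ x (Y y))) := by
  have hb : ∀ x y : H, ∀ s, ‖(inner ℂ x (X s y) : ℂ)‖ ≤ ‖x‖ * ‖y‖ := by
    intro x y s
    refine (norm_inner_le_norm _ _).trans ?_
    have := (X s).le_of_opNorm_le (hX s) y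
    rw [one_mul] at this
    gcongr
  have hlim : ∀ x y : H, ∃ z : ℂ, ‖z‖ ≤ ‖x‖ * ‖y‖ ∧
      Filter.Tendsto (fun s => (inner ℂ x (X s y) : ℂ)) U (𝓝 z) := by
    intro x y
    have hc : IsCompact (Metric.closedBall (0 : ℂ) (‖x‖ * ‖y‖)) := isCompact_closedBall _ _
    obtain ⟨z, hz, hle⟩ := hc.ultrafilter_le_nhds (U.map (fun s => (inner ℂ x (X s y) : ℂ))) (by
      rw [Filter.le_principal_iff, Ultrafilter.mem_coe, Ultrafilter.mem_map]
      refine Filter.univ_mem' fun s => ?_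
      rw [Set.mem_preimage, mem_closedBall_zero_iff]
      exact hb x y s)
    refine ⟨z, by simpa using hz, ?_⟩
    exact hle
  choose L hL1 hL2 using hlim
  have uniq : ∀ x y z, Filter.Tendsto (fun s => (inner ℂ x (X s y) : ℂ)) U (𝓝 z) → L x y = z :=
    fun x y z h => tendsto_nhds_unique (hL2 x y) h
  have hadd1 : ∀ x x' y, L (x + x') y = L x y + L x' y := by
    intro x x' y
    refine uniq _ _ _ ?_
    refine ((hL2 x y).add (hL2 x' y)).congr fun s => ?_
    rw [inner_add_left]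
  have hsmul1 : ∀ (a : ℂ) x y, L (a • x) y = conj a * L x y := by
    intro a x y
    refine uniq _ _ _ ?_
    refine ((hL2 x y).const_mul (conj a)).congr fun s => ?_
    rw [inner_smul_left]
  have hadd2 : ∀ x y y', L x (y + y') = L x y + L x y' := by
    intro x y y'
    refine uniq _ _ _ ?_
    refine ((hL2 x y).add (hL2 x y')).congr fun s => ?_
    rw [map_add, inner_add_right]
  have hsmul2 : ∀ (a : ℂ) x y, L x (a • y) = a * L x y := by
    intro a x y
    refine uniq _ _ _ ?_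
    refine ((hL2 x y).const_mul a).congr fun s => ?_
    rw [map_smul, inner_smul_right]
  have hex : ∀ y, ∃ η : H, ∀ x, inner ℂ x η = L x y := by
    intro y
    let φ : H →ₗ[ℂ] ℂ :=
      { toFun := fun x => conj (L x y)
        map_add' := fun x x' => by rw [hadd1, map_add]
        map_smul' := fun a x => by
          rw [hsmul1, map_mul, Complex.conj_conj]; rfl }
    have hφ : ∀ x, ‖φ x‖ ≤ ‖y‖ * ‖x‖ := by
      intro x
      change ‖conj (L x y)‖ ≤ _
      rw [RCLike.norm_conj, mul_comm]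
      exact hL1 x y
    refine ⟨(InnerProductSpace.toDual ℂ H).symm (φ.mkContinuous ‖y‖ hφ), fun x => ?_⟩
    rw [← inner_conj_symm, InnerProductSpace.toDual_symm_apply]
    change conj (conj (L x y)) = L x y
    rw [Complex.conj_conj]
  choose Yf hYf using hex
  let Yl : H →ₗ[ℂ] H :=
    { toFun := Yf
      map_add' := fun y y' => by
        refine ext_inner_left ℂ fun x => ?_
        rw [hYf, inner_add_right, hYf, hYf, hadd2]
      map_smul' := fun a y => by
        refine ext_inner_left ℂ fun x => ?_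
        rw [hYf, RingHom.id_apply, inner_smul_right, hYf, hsmul2] }
  have hYb : ∀ y, ‖Yl y‖ ≤ 1 * ‖y‖ := by
    intro y
    rw [one_mul]
    change ‖Yf y‖ ≤ ‖y‖
    have h1 : ‖(inner ℂ (Yf y) (Yf y) : ℂ)‖ ≤ ‖Yf y‖ * ‖y‖ := by
      rw [hYf]; exact hL1 _ _
    have h2 : ‖(inner ℂ (Yf y) (Yf y) : ℂ)‖ = ‖Yf y‖ ^ 2 := by
      rw [inner_self_eq_norm_sq_to_K, norm_pow]
      simp
    rw [h2] at h1
    rcases eq_or_lt_of_le (norm_nonneg (Yf y)) with h | h
    · rw [← h]; exact norm_nonneg y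
    · nlinarith
  refine ⟨Yl.mkContinuous 1 hYb, LinearMap.mkContinuous_norm_le _ zero_le_one _, fun x y => ?_⟩
  have : (inner ℂ x ((Yl.mkContinuous 1 hYb) y) : ℂ) = L x y := hYf y x
  rw [this]
  exact hL2 x y

/-- **Arveson's distance formula** (strict form) for chains of projections -/
theorem arveson {N : Set (H →L[ℂ] H)} (hp : ∀ P ∈ N, IsStarProjection P)
    (htot : ∀ P ∈ N, ∀ Q ∈ N, P * Q = P ∨ Q * P = Q) {T : H →L[ℂ] H} {t : ℝ} (ht : t < 1)
    (hT : ∀ P ∈ N, ‖(1 - P) * T * P‖ ≤ t) : ∃ A ∈ AlgOf N, ‖T - A‖ ≤ 1 := by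
  have h1 := finite_completion hp htot ht hT
  choose X hX1 hX2 using h1
  obtain ⟨Y, hY1, hY2⟩ := exists_limit (Ultrafilter.of (Filter.atTop : Filter (Finset N))) X hX1
  refine ⟨T - Y, ?_, by rw [sub_sub_cancel]; exact hY1⟩
  intro P hP
  have key : (1 - P) * Y * P = (1 - P) * T * P := by
    refine ContinuousLinearMap.ext fun y => ?_
    refine ext_inner_left ℂ fun x => ?_
    have hP1 := (hp P hP).one_sub
    have h2 := hY2 ((1 - P) x) (P y)
    have h3 : ∀ᶠ s in (Ultrafilter.of (Filter.atTop : Filter (Finset N)) : Filter (Finset N)),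
        inner ℂ ((1 - P) x) (X s (P y)) = inner ℂ x (((1 - P) * T * P) y) := by
      have h4 : ∀ᶠ s in (Filter.atTop : Filter (Finset N)), (⟨P, hP⟩ : N) ∈ s :=
        Filter.eventually_atTop.2 ⟨{⟨P, hP⟩}, fun s hs => hs (Finset.mem_singleton_self _)⟩
      have h5 := Filter.Eventually.filter_mono (Ultrafilter.of_le _) h4
      filter_upwards [h5] with s hs
      have h6 := hX2 s ⟨P, hP⟩ hs
      rw [sp_sym hP1]
      have h7 : (1 - P) (X s (P y)) = ((1 - P) * X s * P) y := rfl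
      rw [h7, h6]
    have h4 : Filter.Tendsto (fun s => (inner ℂ ((1 - P) x) (X s (P y)) : ℂ))
        (Ultrafilter.of (Filter.atTop : Filter (Finset N)) : Filter (Finset N))
        (𝓝 (inner ℂ x (((1 - P) * T * P) y))) :=
      Filter.Tendsto.congr' (Filter.EventuallyEq.symm h3) tendsto_const_nhds
    have h5 := tendsto_nhds_unique h2 h4
    rw [← h5, sp_sym hP1]; rfl
  have h2 : (T - Y) * P - P * (T - Y) * P = 0 := by
    have h3 : (T - Y) * P - P * (T - Y) * P = (1 - P) * T * P - (1 - P) * Y * P := by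
      simp only [sub_mul, mul_sub, one_mul]; abel
    rw [h3, key, sub_self]
  exact sub_eq_zero.1 h2

end Pool.Agent.Y738.DN
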