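import Pool.Agent.Helper360.Dist.Gen

set_option maxHeartbeats 4000000

open scoped InnerProductSpace Topology ComplexConjugate

namespace Pool.Agent.Y738.DN

open DC

variable {H : Type*} [NormedAddCommGroup H] [InnerProductSpace ℂ H] [CompleteSpace H]

theorem sp_idem {P : H →L[ℂ] H} (hP : IsStarProjection P) (x : H) : P (P x) = P x := by
  have h : P * P = P := hP.isIdempotentElem
  calc P (P x) = (P * P) x := rfl
    _ = P x := by rw [h]

theorem sp_sym {P : H →L[ℂ] H} (hP : IsStarProjection P) (x y : H) :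
    inner ℂ (P x) y = inner ℂ x (P y) := by
  have h := ContinuousLinearMap.isSelfAdjoint_iff_isSymmetric.1 hP.isSelfAdjoint
  exact h x y

theorem sp_norm {P : H →L[ℂ] H} (hP : IsStarProjection P) (x : H) : ‖P x‖ ≤ ‖x‖ :=
  gs8119_norm_le P hP x

theorem sp_opNorm {P : H →L[ℂ] H} (hP : IsStarProjection P) : ‖P‖ ≤ 1 :=
  ContinuousLinearMap.opNorm_le_bound _ zero_le_one (fun x => by rw [one_mul]; exact sp_norm hP x)

theorem mul_app (S P : H →L[ℂ] H) (x : H) : (S * P) x = S (P x) := rfl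

/-- order on projections is symmetric -/
theorem le_symm {P Q : H →L[ℂ] H} (hP : IsStarProjection P) (hQ : IsStarProjection Q)
    (h : P * Q = P) : Q * P = P := by
  have h2 := congrArg star h
  rwa [star_mul, hP.isSelfAdjoint.star_eq, hQ.isSelfAdjoint.star_eq] at h2

/-- projections in the double commutant -/
def big (G : Set (H →L[ℂ] H)) : Set (H →L[ℂ] H) :=
  {P | IsStarProjection P ∧ ∀ S : H →L[ℂ] H, (∀ Q ∈ G, S * Q = Q * S) → S * P = P * S}

theorem sot_proj (T : H →L[ℂ] H)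
    (hT : ∀ (s : Finset H) (ε : ℝ), 0 < ε →
      ∃ P : H →L[ℂ] H, IsStarProjection P ∧ ∀ x ∈ s, ‖T x - P x‖ < ε) : IsStarProjection T := by
  have hT' : ∀ (s : Finset H) (ε : ℝ), 0 < ε →
      ∃ P ∈ {P : H →L[ℂ] H | IsStarProjection P}, ∀ x ∈ s, ‖T x - P x‖ < ε := hT
  have hTsa : ∀ x y, ⟪T x, y⟫_ℂ = ⟪x, T y⟫_ℂ := by
    intro x y
    classical
    obtain ⟨P, hP1, hP2⟩ := gs8119_seq _ T hT' {x, y}
    have h1 := hP2 x (by simp)
    have h2 := hP2 y (by simp)
    have h3 : Filter.Tendsto (fun n => ⟪P n x, y⟫_ℂ) Filter.atTop (𝓝 ⟪T x, y⟫_ℂ) :=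
      h1.inner tendsto_const_nhds
    have h4 : Filter.Tendsto (fun n => ⟪x, P n y⟫_ℂ) Filter.atTop (𝓝 ⟪x, T y⟫_ℂ) :=
      tendsto_const_nhds.inner h2
    have h5 : (fun n => ⟪P n x, y⟫_ℂ) = fun n => ⟪x, P n y⟫_ℂ := by
      funext n
      exact sp_sym (hP1 n) x y
    rw [h5] at h3
    exact tendsto_nhds_unique h3 h4
  have hTid : ∀ x, T (T x) = T x := by
    intro x
    classical
    obtain ⟨P, hP1, hP2⟩ := gs8119_seq _ T hT' {x, T x}
    have h1 := hP2 x (by simp)
    have h2 := hP2 (T x) (by simp)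
    have h3 : Filter.Tendsto (fun n => P n (T x) - P n x) Filter.atTop (𝓝 0) := by
      rw [tendsto_zero_iff_norm_tendsto_zero]
      have h4 : Filter.Tendsto (fun n => ‖T x - P n x‖) Filter.atTop (𝓝 0) := by
        have h5 : Filter.Tendsto (fun n => T x - P n x) Filter.atTop (𝓝 (T x - T x)) :=
          tendsto_const_nhds.sub h1
        rw [sub_self] at h5
        exact tendsto_zero_iff_norm_tendsto_zero.1 h5
      refine squeeze_zero (fun n => norm_nonneg _) (fun n => ?_) h4
      have h6 : P n (P n x) = P n x := sp_idem (hP1 n) x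
      have h8 : P n (T x) - P n x = P n (T x - P n x) := by rw [map_sub, h6]
      rw [h8]
      exact sp_norm (hP1 n) _
    have h9 : Filter.Tendsto (fun n => P n (T x) - P n x) Filter.atTop
        (𝓝 (T (T x) - T x)) := h2.sub h1
    exact sub_eq_zero.1 (tendsto_nhds_unique h9 h3)
  refine ⟨?_, ?_⟩
  · exact ContinuousLinearMap.ext fun x => hTid x
  · exact ContinuousLinearMap.isSelfAdjoint_iff_isSymmetric.2 fun x y => hTsa x y

theorem big_csl {G : Set (H →L[ℂ] H)} (hc : ∀ P ∈ G, ∀ Q ∈ G, P * Q = Q * P) :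
    IsCSL (big G) := by
  have hG : ∀ P ∈ big G, ∀ Q ∈ G, P * Q = Q * P := fun P hP Q hQ =>
    (hP.2 Q (fun R hR => hc Q hQ R hR)).symm
  have hcomm : ∀ P ∈ big G, ∀ Q ∈ big G, P * Q = Q * P := fun P hP Q hQ =>
    hQ.2 P (hG P hP)
  refine ⟨fun P hP => hP.1, hcomm, ?_, ?_, ?_, ?_, ?_⟩
  · exact ⟨IsStarProjection.zero _, fun S _ => by rw [mul_zero, zero_mul]⟩
  · exact ⟨IsStarProjection.one _, fun S _ => by rw [mul_one, one_mul]⟩
  · intro P hP Q hQ
    refine ⟨hP.1.mul hQ.1 (hcomm P hP Q hQ), fun S h1 => ?_⟩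
    rw [← mul_assoc, hP.2 S h1, mul_assoc, hQ.2 S h1, mul_assoc]
  · intro P hP Q hQ
    refine ⟨IsStarProjection.add_sub_mul_of_commute (hcomm P hP Q hQ) hP.1 hQ.1, fun S h1 => ?_⟩
    rw [mul_sub, mul_add, sub_mul, add_mul, hP.2 S h1, hQ.2 S h1, ← mul_assoc,
      hP.2 S h1, mul_assoc, hQ.2 S h1, mul_assoc]
  · intro T hT
    refine ⟨sot_proj T fun s ε hε => ?_, fun S h1 => ?_⟩
    · obtain ⟨P, hP, h⟩ := hT s ε hε
      exact ⟨P, hP.1, h⟩
    · refine ContinuousLinearMap.ext fun x => ?_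
      classical
      obtain ⟨P, hP1, hP2⟩ := gs8119_seq _ T hT {x, S x}
      have h3 := hP2 x (by simp)
      have h4 := hP2 (S x) (by simp)
      have h5 : Filter.Tendsto (fun n => S (P n x)) Filter.atTop (𝓝 (S (T x))) :=
        (S.continuous.tendsto _).comp h3
      have h6 : (fun n => S (P n x)) = fun n => P n (S x) := by
        funext n
        have h7 := (hP1 n).2 S h1
        have h8 : (S * P n) x = (P n * S) x := by rw [h7]
        exact h8
      rw [h6] at h5
      exact tendsto_nhds_unique h5 h4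

/-- commuting families of projections -/
structure IsFam (G : Set (H →L[ℂ] H)) : Prop where
  proj : ∀ P ∈ G, IsStarProjection P
  comm : ∀ P ∈ G, ∀ Q ∈ G, P * Q = Q * P

theorem fam_sub_big {G : Set (H →L[ℂ] H)} (hG : IsFam G) : G ⊆ big G :=
  fun P hP => ⟨hG.proj P hP, fun _ h1 => h1 P hP⟩

theorem generated_csl {G : Set (H →L[ℂ] H)} (hG : IsFam G) : IsCSL (generated G) := by
  have hM := big_csl hG.comm
  have hsub : ∀ P ∈ generated G, P ∈ big G := fun P hP => hP _ hM (fam_sub_big hG)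
  refine ⟨fun P hP => hM.proj P (hsub P hP), fun P hP Q hQ =>
    hM.comm P (hsub P hP) Q (hsub Q hQ), fun L hL _ => hL.zero_mem, fun L hL _ => hL.one_mem,
    fun P hP Q hQ L hL hGL => hL.inf_mem P (hP L hL hGL) Q (hQ L hL hGL),
    fun P hP Q hQ L hL hGL => hL.sup_mem P (hP L hL hGL) Q (hQ L hL hGL),
    fun T hT L hL hGL => hL.sot_closed T fun s ε hε => ?_⟩
  obtain ⟨P, hP1, hP2⟩ := hT s ε hε
  exact ⟨P, hP1 L hL hGL, hP2⟩

theorem sub_generated (G : Set (H →L[ℂ] H)) : G ⊆ generated G := fun _ hP _ _ hGL => hGL hP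

theorem generated_comm {G : Set (H →L[ℂ] H)} (hG : IsFam G) {S : H →L[ℂ] H}
    (hS : ∀ Q ∈ G, S * Q = Q * S) : ∀ P ∈ generated G, S * P = P * S := fun P hP =>
  (hP _ (big_csl hG.comm) (fam_sub_big hG)).2 S hS

theorem gen_induct {G : Set (H →L[ℂ] H)} (hG : IsFam G) (p : (H →L[ℂ] H) → Prop)
    (h0 : p 0) (h1 : p 1) (hg : ∀ P ∈ G, p P)
    (hinf : ∀ P Q : H →L[ℂ] H, IsStarProjection P → IsStarProjection Q → P * Q = Q * P →
      p P → p Q → p (P * Q))
    (hsup : ∀ P Q : H →L[ℂ] H, IsStarProjection P → IsStarProjection Q → P * Q = Q * P →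
      p P → p Q → p (P + Q - P * Q))
    (hsot : ∀ T : H →L[ℂ] H, IsStarProjection T →
      (∀ (s : Finset H) (ε : ℝ), 0 < ε →
        ∃ P : H →L[ℂ] H, p P ∧ ∀ x ∈ s, ‖T x - P x‖ < ε) → p T) :
    ∀ Q ∈ generated G, p Q := by
  have hcsl := generated_csl hG
  intro Q hQ
  have hL : IsCSL {P | P ∈ generated G ∧ p P} := by
    refine ⟨fun P hP => hcsl.proj P hP.1, fun P hP Q hQ => hcsl.comm P hP.1 Q hQ.1,
      ⟨hcsl.zero_mem, h0⟩, ⟨hcsl.one_mem, h1⟩, ?_, ?_, ?_⟩
    · intro P hP Q hQ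
      exact ⟨hcsl.inf_mem P hP.1 Q hQ.1, hinf P Q (hcsl.proj P hP.1) (hcsl.proj Q hQ.1)
        (hcsl.comm P hP.1 Q hQ.1) hP.2 hQ.2⟩
    · intro P hP Q hQ
      exact ⟨hcsl.sup_mem P hP.1 Q hQ.1, hsup P Q (hcsl.proj P hP.1) (hcsl.proj Q hQ.1)
        (hcsl.comm P hP.1 Q hQ.1) hP.2 hQ.2⟩
    · intro T hT
      have hT1 : T ∈ generated G := hcsl.sot_closed T fun s ε hε => by
        obtain ⟨P, hP, h⟩ := hT s ε hε
        exact ⟨P, hP.1, h⟩
      refine ⟨hT1, hsot T (hcsl.proj T hT1) fun s ε hε => ?_⟩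
      obtain ⟨P, hP, h⟩ := hT s ε hε
      exact ⟨P, hP.2, h⟩
  exact (hQ _ hL (fun P hP => ⟨sub_generated G hP, hg P hP⟩)).2

/-- domination passes to the generated lattice -/
theorem gen_dom {G : Set (H →L[ℂ] H)} (hG : IsFam G) {x y : H}
    (h : ∀ P ∈ G, P y = 0 ∨ P x = x) : ∀ Q ∈ generated G, Q y = 0 ∨ Q x = x := by
  refine gen_induct hG (fun Q => Q y = 0 ∨ Q x = x) (Or.inl rfl) (Or.inr rfl) h ?_ ?_ ?_
  · intro P Q _ _ hc h1 h2
    rcases h1 with h1 | h1
    · left; rw [hc, mul_app, h1, map_zero]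
    · rcases h2 with h2 | h2
      · left; rw [mul_app, h2, map_zero]
      · right; rw [mul_app, h2, h1]
  · intro P Q _ _ hc h1 h2
    rcases h1 with h1 | h1
    · rcases h2 with h2 | h2
      · left
        change P y + Q y - P (Q y) = 0
        rw [h1, h2, map_zero, add_zero, sub_zero]
      · right
        change P x + Q x - P (Q x) = x
        rw [h2, add_sub_cancel_left]
    · right
      rw [hc]
      change P x + Q x - Q (P x) = x
      rw [h1, add_sub_cancel_right]
  · intro T _ hT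
    by_cases hy : T y = 0
    · left; exact hy
    · right
      classical
      obtain ⟨P, hP1, hP2⟩ := gs8119_seq {P | P y = 0 ∨ P x = x} T hT {x, y}
      have h3 := hP2 x (by simp)
      have h4 := hP2 y (by simp)
      have h5 : ∀ᶠ n in Filter.atTop, P n y ≠ 0 := h4.eventually_ne hy
      have h6 : ∀ᶠ n in Filter.atTop, P n x = x := by
        filter_upwards [h5] with n hn
        rcases hP1 n with h7 | h7
        · exact absurd h7 hn
        · exact h7
      have h7 : Filter.Tendsto (fun n => P n x) Filter.atTop (𝓝 x) :=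
        Filter.Tendsto.congr' (Filter.EventuallyEq.symm h6) tendsto_const_nhds
      exact tendsto_nhds_unique h3 h7

/-- invariance passes to the generated lattice -/
theorem gen_alg {G : Set (H →L[ℂ] H)} (hG : IsFam G) {S : H →L[ℂ] H} (h : S ∈ AlgOf G) :
    S ∈ AlgOf (generated G) := by
  have key : ∀ Q ∈ generated G, IsStarProjection Q ∧ S * Q = Q * S * Q := by
    refine gen_induct hG (fun Q => IsStarProjection Q ∧ S * Q = Q * S * Q)
      ⟨IsStarProjection.zero _, by simp⟩ ⟨IsStarProjection.one _, by simp⟩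
      (fun P hP => ⟨hG.proj P hP, h P hP⟩) ?_ ?_ ?_
    · rintro P Q hP hQ hc ⟨-, h1⟩ ⟨-, h2⟩
      refine ⟨hP.mul hQ hc, ?_⟩
      have e1 : S * (P * Q) = P * S * P * Q := by rw [← mul_assoc, h1]
      have e2 : S * (P * Q) = Q * S * Q * P := by rw [hc, ← mul_assoc, h2]
      have e3 : P * (S * (P * Q)) = S * (P * Q) := by
        rw [e1, ← mul_assoc, ← mul_assoc, ← mul_assoc, hP.isIdempotentElem]
      have e4 : Q * (S * (P * Q)) = S * (P * Q) := by
        rw [e2, ← mul_assoc, ← mul_assoc, ← mul_assoc, hQ.isIdempotentElem]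
      rw [mul_assoc (P * Q) S, mul_assoc P Q, e4, e3]
    · rintro P Q hP hQ hc ⟨-, h1⟩ ⟨-, h2⟩
      refine ⟨IsStarProjection.add_sub_mul_of_commute hc hP hQ, ?_⟩
      have e1 : (P + Q - P * Q) * P = P := by
        have h5 : P * Q * P = Q * P := by rw [hc, mul_assoc, hP.isIdempotentElem]
        rw [sub_mul, add_mul, hP.isIdempotentElem, h5, add_sub_cancel_right]
      have e2 : (P + Q - P * Q) * Q = Q := by
        rw [sub_mul, add_mul, hQ.isIdempotentElem, mul_assoc, hQ.isIdempotentElem,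
          add_sub_cancel_left]
      have e3 : (P + Q - P * Q) * (S * P) = S * P := by
        rw [h1, ← mul_assoc, ← mul_assoc, e1]
      have e4 : (P + Q - P * Q) * (S * Q) = S * Q := by
        rw [h2, ← mul_assoc, ← mul_assoc, e2]
      have e5 : S * (P + Q - P * Q) = S * P + S * Q - S * P * Q := by
        rw [mul_sub, mul_add, mul_assoc]
      rw [mul_assoc, e5, mul_sub, mul_add, e3, e4, ← mul_assoc _ (S * P) Q, e3]
    · intro T hT hT2
      refine ⟨hT, ContinuousLinearMap.ext fun x => ?_⟩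
      change S (T x) = T (S (T x))
      classical
      obtain ⟨P, hP1, hP2⟩ := gs8119_seq {Q | IsStarProjection Q ∧ S * Q = Q * S * Q} T hT2
        {x, S (T x)}
      have h3 := hP2 x (by simp)
      have h4 := hP2 (S (T x)) (by simp)
      have h5 : Filter.Tendsto (fun n => S (P n x)) Filter.atTop (𝓝 (S (T x))) :=
        (S.continuous.tendsto _).comp h3
      have h6 : Filter.Tendsto (fun n => P n (S (P n x)) - P n (S (T x))) Filter.atTop (𝓝 0) := by
        rw [tendsto_zero_iff_norm_tendsto_zero]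
        have h7 : Filter.Tendsto (fun n => ‖S (P n x) - S (T x)‖) Filter.atTop (𝓝 0) := by
          have := tendsto_iff_norm_sub_tendsto_zero.1 h5
          exact this
        refine squeeze_zero (fun n => norm_nonneg _) (fun n => ?_) h7
        rw [← map_sub]
        exact sp_norm (hP1 n).1 _
      have h8 : Filter.Tendsto (fun n => P n (S (P n x))) Filter.atTop (𝓝 (T (S (T x)))) := by
        have := h6.add h4
        rw [zero_add] at this
        refine this.congr fun n => ?_
        rw [sub_add_cancel]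
      have h9 : (fun n => P n (S (P n x))) = fun n => S (P n x) := by
        funext n
        have h10 : (S * P n) x = (P n * S * P n) x := by rw [← (hP1 n).2]
        exact h10.symm
      rw [h9] at h8
      exact tendsto_nhds_unique h5 h8
  exact fun Q hQ => (key Q hQ).2

end Pool.Agent.Y738.DN
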