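import Pool.Agent.Helper360.Dist.StageZero
import Pool.Agent.Helper360.Dist.StageSucc
import Pool.Agent.Y738.DN.Basic

set_option maxHeartbeats 4000000
set_option linter.unusedSectionVars false

open scoped InnerProductSpace Topology ComplexConjugate

namespace Pool.Agent.Y738.DN

open DC

variable {H : Type*} [NormedAddCommGroup H] [InnerProductSpace ℂ H] [CompleteSpace H]

/-- `n` by `n` grids of unit vectors for a set of operators, for every `n` -/
def HasGrids (𝒜 : Set (H →L[ℂ] H)) : Prop :=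
  ∀ n : ℕ, ∃ c ρ : ℕ → ℕ → H,
    (∀ i < n, ∀ j < n, ‖c i j‖ = 1 ∧ ‖ρ i j‖ = 1) ∧
    (∀ i < n, ∀ j < n, ∀ i' < n, ∀ j' < n, i < i' →
      inner ℂ (c i j) (c i' j') = (0 : ℂ) ∧ inner ℂ (ρ i j) (ρ i' j') = (0 : ℂ)) ∧
    (∀ A ∈ 𝒜, ∀ i < n, ∀ j < n, ∀ i' < n, ∀ j' < n, (j' ≤ j ∨ i' < i) →
      inner ℂ (ρ i j) (A (c i' j')) = (0 : ℂ)) ∧
    (∀ P ∈ LatOf 𝒜, ∀ i < n, ∀ j < n, ∀ i' < n, ∀ j' < n, i < i' → j < j' →
      P (c i' j') = 0 ∨ P (ρ i j) = ρ i j)

theorem norm_one_of {z : H} (h1 : inner ℂ z z = (1 : ℂ)) : ‖z‖ = 1 := by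
  have h2 := inner_self_eq_norm_sq (𝕜 := ℂ) z
  rw [h1, RCLike.one_re] at h2
  have h4 := norm_nonneg z
  nlinarith

theorem orth_of {Y : Type} {i : Y → ℕ} (hi : Function.Injective i) {c : Y → H}
    (h1 : ∀ p, ‖c p‖ = 1) (key : ∀ p q, i p < i q → inner ℂ (c p) (c q) = (0 : ℂ)) :
    Orthonormal ℂ c := by
  refine ⟨h1, fun p q hpq => ?_⟩
  rcases lt_or_gt_of_ne (fun h => hpq (hi h)) with h | h
  · exact key p q h
  · show inner ℂ (c p) (c q) = (0 : ℂ)
    rw [← inner_conj_symm, key q p h, map_zero]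

/-- the operators -/
theorem exists_bad' {𝒜 : Set (H →L[ℂ] H)} (hg : HasGrids 𝒜) (r : ℕ) (hr : Stage r) :
    ∃ T : H →L[ℂ] H, (∀ A ∈ 𝒜, (r + 1 : ℝ) ≤ ‖T - A‖) ∧
      ∀ P ∈ LatOf 𝒜, ‖(1 - P) * T * P‖ ^ 2 ≤ 4 * r + 1 := by
  obtain ⟨Y, κ, instY, instD, instκ, n, i, j, S, w, hκ, hin, hjn, hi, hj, hS1, hw1, hw2, hw3⟩ := hr
  obtain ⟨c0, ρ0, hu, ho, hk, hl⟩ := hg n
  set c : Y → H := fun p => c0 (i p) (j p) with hcdef
  set ρ : Y → H := fun p => ρ0 (i p) (j p) with hρdef
  have hcon : Orthonormal ℂ c := orth_of hi (fun p => (hu _ (hin p) _ (hjn p)).1)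
    (fun p q hpq => (ho _ (hin p) _ (hjn p) _ (hin q) _ (hjn q) hpq).1)
  have hρon : Orthonormal ℂ ρ := orth_of hi (fun p => (hu _ (hin p) _ (hjn p)).2)
    (fun p q hpq => (ho _ (hin p) _ (hjn p) _ (hin q) _ (hjn q) hpq).2)
  set T : H →L[ℂ] H := ∑ p, ∑ q, (S p q : ℂ) • (innerSL ℂ (c q)).smulRight (ρ p) with hT
  have hTf : ∀ f, T f = ∑ p, ∑ q, ((S p q : ℂ) * inner ℂ (c q) f) • ρ p := by
    intro f
    simp only [hT, sum_apply, ContinuousLinearMap.smul_apply,
      ContinuousLinearMap.smulRight_apply, innerSL_apply_apply]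
    refine Finset.sum_congr rfl fun p _ => Finset.sum_congr rfl fun q _ => ?_
    rw [mul_smul]
  have hTin : ∀ g f, inner ℂ g (T f) =
      ∑ p, ∑ q, (S p q : ℂ) * inner ℂ (c q) f * inner ℂ g (ρ p) := by
    intro g f
    rw [hTf, inner_sum]
    refine Finset.sum_congr rfl fun p _ => ?_
    rw [inner_sum]
    refine Finset.sum_congr rfl fun q _ => ?_
    rw [inner_smul_right]
  refine ⟨T, ?_, ?_⟩
  · -- lower bound
    intro A hA
    have hM : ∀ p q, ¬ (i p < i q ∧ j p < j q) → inner ℂ (ρ p) (A (c q)) = (0 : ℂ) := by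
      intro p q hpq
      refine hk A hA _ (hin p) _ (hjn p) _ (hin q) _ (hjn q) ?_
      by_cases hjq : j q ≤ j p
      · exact Or.inl hjq
      · right
        have hjlt : j p < j q := not_le.1 hjq
        have hile : i q ≤ i p := by
          by_contra hcon
          exact hpq ⟨not_le.1 hcon, hjlt⟩
        have hne : i q ≠ i p := by
          intro heq
          have := hi heq
          subst this
          exact lt_irrefl _ hjlt
        omega
    set f : κ → H := fun k => ∑ q, (w k q : ℂ) • c q with hf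
    set g : κ → H := fun k => ∑ p, (w k p : ℂ) • ρ p with hg
    have hnorm : ∀ (v : Y → H) (hv : Orthonormal ℂ v) (k : κ), ‖∑ p, (w k p : ℂ) • v p‖ = 1 := by
      intro v hv k
      have h1 : inner ℂ (∑ p, (w k p : ℂ) • v p) (∑ p, (w k p : ℂ) • v p) = (1 : ℂ) := by
        rw [hv.inner_sum]
        have h2 : ∑ p, conj ((w k p : ℂ)) * (w k p : ℂ) = ((∑ p, w k p ^ 2 : ℝ) : ℂ) := by
          push_cast
          refine Finset.sum_congr rfl fun p _ => ?_
          rw [Complex.conj_ofReal, pow_two]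
        rw [h2, hw1 k, Complex.ofReal_one]
      exact norm_one_of h1
    have hfn : ∀ k, ‖f k‖ = 1 := fun k => hnorm c hcon k
    have hgn : ∀ k, ‖g k‖ = 1 := fun k => hnorm ρ hρon k
    have hTk : ∀ k, inner ℂ (g k) (T (f k)) = ((∑ p, ∑ q, w k p * S p q * w k q : ℝ) : ℂ) := by
      intro k
      rw [hTin]
      push_cast
      refine Finset.sum_congr rfl fun p _ => Finset.sum_congr rfl fun q _ => ?_
      have e1 : inner ℂ (c q) (f k) = (w k q : ℂ) := hcon.inner_right_fintype _ q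
      have e2 : inner ℂ (g k) (ρ p) = (w k p : ℂ) := by
        have := hρon.inner_left_fintype (fun p => (w k p : ℂ)) p
        rw [Complex.conj_ofReal] at this
        exact this
      rw [e1, e2]
      ring
    have hAk : ∀ k, inner ℂ (g k) (A (f k)) =
        ∑ p, ∑ q, inner ℂ (ρ p) (A (c q)) * ((w k p * w k q : ℝ) : ℂ) := by
      intro k
      simp only [hf, hg, map_sum, map_smul]
      rw [sum_inner]
      refine Finset.sum_congr rfl fun p _ => ?_
      rw [inner_sum]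
      refine Finset.sum_congr rfl fun q _ => ?_
      rw [inner_smul_left, inner_smul_right, Complex.conj_ofReal]
      push_cast
      ring
    have hsumA : ∑ k, inner ℂ (g k) (A (f k)) = (0 : ℂ) := by
      simp only [hAk]
      rw [Finset.sum_comm]
      refine Finset.sum_eq_zero fun p _ => ?_
      rw [Finset.sum_comm]
      refine Finset.sum_eq_zero fun q _ => ?_
      rw [← Finset.mul_sum]
      by_cases hpq : i p < i q ∧ j p < j q
      · have := hw2 p q hpq.1 hpq.2
        have h2 : ∑ k, ((w k p * w k q : ℝ) : ℂ) = ((∑ k, w k p * w k q : ℝ) : ℂ) := by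
          push_cast; rfl
        rw [h2, this]
        simp
      · rw [hM p q hpq, zero_mul]
    have hsumT : ∑ k, inner ℂ (g k) (T (f k)) = (((r + 1) * Fintype.card κ : ℝ) : ℂ) := by
      simp only [hTk]
      rw [← hw3]
      push_cast
      rfl
    have hsum : ∑ k, inner ℂ (g k) ((T - A) (f k)) = (((r + 1) * Fintype.card κ : ℝ) : ℂ) := by
      rw [← hsumT, ← sub_zero (∑ k, inner ℂ (g k) (T (f k))), ← hsumA, ← Finset.sum_sub_distrib]
      refine Finset.sum_congr rfl fun k _ => ?_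
      rw [ContinuousLinearMap.sub_apply, inner_sub_right]
    have hle : ‖∑ k, (inner ℂ (g k) ((T - A) (f k)) : ℂ)‖ ≤ ∑ _k : κ, ‖T - A‖ := by
      refine (norm_sum_le _ _).trans (Finset.sum_le_sum fun k _ => ?_)
      calc ‖(inner ℂ (g k) ((T - A) (f k)) : ℂ)‖ ≤ ‖g k‖ * ‖(T - A) (f k)‖ := norm_inner_le_norm _ _
        _ = ‖(T - A) (f k)‖ := by rw [hgn, one_mul]
        _ ≤ ‖T - A‖ * ‖f k‖ := (T - A).le_opNorm _
        _ = ‖T - A‖ := by rw [hfn, mul_one]
    rw [hsum, Complex.norm_real, Finset.sum_const, Finset.card_univ, nsmul_eq_mul] at hle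
    have hcard : (0 : ℝ) < Fintype.card κ := by exact_mod_cast Fintype.card_pos
    rw [Real.norm_of_nonneg (by positivity), mul_comm] at hle
    exact le_of_mul_le_mul_left hle hcard
  · -- upper bound
    intro P hP
    have hPp : IsStarProjection P := hP.1
    have hP1 : IsStarProjection (1 - P) := hPp.one_sub
    have hbound : ∀ f : H, ‖((1 - P) * T * P) f‖ ≤ Real.sqrt (4 * r + 1) * ‖f‖ := by
      intro f
      set g : H := ((1 - P) * T * P) f with hg
      have hg2 : g = (1 - P) (T (P f)) := rfl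
      have h1 : inner ℂ g g = inner ℂ ((1 - P) g) (T (P f)) := by
        rw [sp_sym hP1, ← hg2]
      rw [hTin] at h1
      have h2 := hS1 (fun q => inner ℂ (c q) (P f)) (fun p => inner ℂ (ρ p) ((1 - P) g)) (by
        intro p q hb ha hpq
        have hPc : P (c q) ≠ 0 := by
          intro h0
          apply ha
          show inner ℂ (c q) (P f) = 0
          rw [← sp_sym hPp, h0, inner_zero_left]
        have hPρ : P (ρ p) = ρ p := by
          rcases hl P hP _ (hin p) _ (hjn p) _ (hin q) _ (hjn q) hpq.1 hpq.2 with h | h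
          · exact absurd h hPc
          · exact h
        apply hb
        show inner ℂ (ρ p) ((1 - P) g) = 0
        rw [← sp_sym hP1]
        have : (1 - P) (ρ p) = ρ p - P (ρ p) := rfl
        rw [this, hPρ, sub_self, inner_zero_left])
      have h3 : ∑ p, ∑ q, (S p q : ℂ) * inner ℂ (c q) (P f) * conj (inner ℂ (ρ p) ((1 - P) g)) =
          inner ℂ g g := by
        rw [h1]
        refine Finset.sum_congr rfl fun p _ => Finset.sum_congr rfl fun q _ => ?_
        rw [inner_conj_symm]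
      have h4 : ‖(inner ℂ g g : ℂ)‖ = ‖g‖ ^ 2 := by
        rw [inner_self_eq_norm_sq_to_K, norm_pow]
        simp
      have h5 : ∑ q, ‖(inner ℂ (c q) (P f) : ℂ)‖ ^ 2 ≤ ‖f‖ ^ 2 := by
        have := hcon.sum_inner_products_le (P f) (s := Finset.univ)
        refine this.trans ?_
        have := sp_norm hPp f
        gcongr
      have h6 : ∑ p, ‖(inner ℂ (ρ p) ((1 - P) g) : ℂ)‖ ^ 2 ≤ ‖g‖ ^ 2 := by
        have := hρon.sum_inner_products_le ((1 - P) g) (s := Finset.univ)
        refine this.trans ?_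
        have := sp_norm hP1 g
        gcongr
      rw [h3, h4] at h2
      have h7 : (∑ q, ‖(inner ℂ (c q) (P f) : ℂ)‖ ^ 2) *
          ∑ p, ‖(inner ℂ (ρ p) ((1 - P) g) : ℂ)‖ ^ 2 ≤ ‖f‖ ^ 2 * ‖g‖ ^ 2 :=
        mul_le_mul h5 h6 (Finset.sum_nonneg fun _ _ => by positivity) (by positivity)
      have h8 : (‖g‖ ^ 2) ^ 2 ≤ (4 * r + 1) * (‖f‖ ^ 2 * ‖g‖ ^ 2) :=
        h2.trans (mul_le_mul_of_nonneg_left h7 (by positivity))
      rcases eq_or_lt_of_le (norm_nonneg g) with h0 | h0
      · rw [← h0]; positivity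
      · apply le_of_sq_le_sq _ (by positivity)
        rw [mul_pow, Real.sq_sqrt (by positivity)]
        have h9 : ‖g‖ ^ 2 * ‖g‖ ^ 2 ≤ ((4 * r + 1) * ‖f‖ ^ 2) * ‖g‖ ^ 2 := by nlinarith
        exact le_of_mul_le_mul_right h9 (by positivity)
    have h10 : ‖(1 - P) * T * P‖ ≤ Real.sqrt (4 * r + 1) :=
      ContinuousLinearMap.opNorm_le_bound _ (Real.sqrt_nonneg _) hbound
    have h11 : (Real.sqrt (4 * r + 1)) ^ 2 = (4 * r + 1 : ℝ) := Real.sq_sqrt (by positivity)
    rw [← h11]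
    gcongr

/-- **Grids of all sizes exclude a distance constant.** -/
theorem no_constant_of_grids {𝒜 : Set (H →L[ℂ] H)} (hne : 𝒜.Nonempty) (hg : HasGrids 𝒜) :
    ¬ HasDistanceConstant 𝒜 := by
  have hs : ∀ r, Stage r := fun r => Nat.rec stage_zero (fun r h => stage_succ r h) r
  rintro ⟨K, hK⟩
  obtain ⟨r, hr⟩ := exists_nat_ge (4 * K ^ 2 + 1)
  obtain ⟨T, hT1, hT2⟩ := exists_bad' hg r (hs r)
  have h1 := hK T
  have h2 : (r + 1 : ℝ) ≤ Metric.infDist T 𝒜 := by
    rw [Metric.le_infDist hne]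
    intro A hA
    rw [dist_eq_norm]
    exact hT1 A hA
  set s : ℝ := sSup {x : ℝ | ∃ P ∈ LatOf 𝒜, x = ‖(1 - P) * T * P‖} with hsdef
  have hs1 : s ≤ √(4 * r + 1) := by
    apply Real.sSup_le
    · rintro x ⟨P, hP, rfl⟩
      apply Real.le_sqrt_of_sq_le
      exact hT2 P hP
    · positivity
  have hs0 : 0 ≤ s := by
    apply Real.sSup_nonneg
    rintro x ⟨P, hP, rfl⟩
    exact norm_nonneg _
  have h3 : K * s ≤ |K| * √(4 * r + 1) :=
    mul_le_mul (le_abs_self K) hs1 hs0 (abs_nonneg K)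
  have h4 : (r + 1 : ℝ) ≤ |K| * √(4 * r + 1) := h2.trans (h1.trans h3)
  have h5 : (r + 1 : ℝ) ^ 2 ≤ K ^ 2 * (4 * r + 1) := by
    have h6 := pow_le_pow_left₀ (by positivity) h4 2
    rw [mul_pow, sq_abs, Real.sq_sqrt (by positivity)] at h6
    exact h6
  have h7 : K ^ 2 ≤ (r - 1) / 4 := by linarith
  have h8 : (0:ℝ) ≤ r := Nat.cast_nonneg r
  have h9 : K ^ 2 * (4 * r + 1) ≤ (r - 1) / 4 * (4 * r + 1) :=
    mul_le_mul_of_nonneg_right h7 (by positivity)
  nlinarith

/-- domination of vectors by a family of projections -/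
def Dom (G : Set (H →L[ℂ] H)) (x y : H) : Prop := ∀ P ∈ G, P y = 0 ∨ P x = x

/-- members of `Lat Alg` of the generated lattice respect domination -/
theorem lat_dom {G : Set (H →L[ℂ] H)} (hG : IsFam G) {P : H →L[ℂ] H}
    (hP : P ∈ LatOf (AlgOf (generated G))) {x y : H} (h : Dom G x y) : P y = 0 ∨ P x = x := by
  have hcsl := generated_csl hG
  by_cases hPy : P y = 0
  · left; exact hPy
  right
  obtain ⟨hPp, hPinv⟩ := hP
  have key : ∀ Q ∈ generated G, Q ∈ AlgOf (generated G) := by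
    intro Q hQ R hR
    have h1 : R * Q = Q * R := hcsl.comm R hR Q hQ
    have h2 : R * R = R := (hcsl.proj R hR).isIdempotentElem
    rw [h1, mul_assoc, h2]
  have comm : ∀ Q ∈ generated G, P * Q = Q * P := by
    intro Q hQ
    have h1 := hPinv Q (key Q hQ)
    have h2 : star (Q * P) = star (P * Q * P) := congrArg star h1
    rw [star_mul, star_mul, star_mul, hPp.isSelfAdjoint.star_eq,
      (hcsl.proj Q hQ).isSelfAdjoint.star_eq, ← mul_assoc] at h2
    rw [h2, h1]
  set k := P y with hk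
  have hPk : P k = k := sp_idem hPp y
  have hdk : Dom G x k := by
    intro Q hQ
    rcases h Q hQ with h1 | h1
    · left
      have h2 := congrArg (fun Z : H →L[ℂ] H => Z y) (comm Q (sub_generated G hQ))
      have h3 : P (Q y) = Q (P y) := h2
      rw [hk, ← h3, h1, map_zero]
    · right; exact h1
  have hdk' := gen_dom hG hdk
  let R : H →L[ℂ] H := (innerSL ℂ k).smulRight x
  have hRapp : ∀ f, R f = inner ℂ k f • x := fun f => rfl
  have hR : R ∈ AlgOf (generated G) := by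
    intro Q hQ
    have hQp := hcsl.proj Q hQ
    ext f
    change R (Q f) = Q (R (Q f))
    rw [hRapp, map_smul]
    rcases hdk' Q hQ with h2 | h2
    · rw [← sp_sym hQp, h2, inner_zero_left, zero_smul, zero_smul]
    · rw [h2]
  have h5 := congrArg (fun Z : H →L[ℂ] H => Z k) (hPinv R hR)
  have h6 : R (P k) = P (R (P k)) := h5
  rw [hPk, hRapp, map_smul] at h6
  have hne : (inner ℂ k k : ℂ) ≠ 0 := inner_self_ne_zero.mpr hPy
  exact (smul_right_injective H hne h6).symm

theorem alg_kill {G : Set (H →L[ℂ] H)} {A : H →L[ℂ] H} (hA : A ∈ AlgOf (generated G))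
    {Q : H →L[ℂ] H} (hQG : Q ∈ G) (hQ : IsStarProjection Q) {x y : H} (hx : Q x = 0)
    (hy : Q y = y) : inner ℂ x (A y) = (0 : ℂ) := by
  have h1 : (A * Q) y = (Q * A * Q) y :=
    congrArg (fun T : H →L[ℂ] H => T y) (hA Q (sub_generated G hQG))
  have h2 : A (Q y) = Q (A (Q y)) := h1
  rw [hy] at h2
  rw [h2, ← sp_sym hQ, hx, inner_zero_left]

end Pool.Agent.Y738.DN
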