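import Pool.Agent.Y738.DN.Grid

set_option maxHeartbeats 4000000
set_option linter.unusedSectionVars false

open scoped InnerProductSpace Topology ComplexConjugate

namespace Pool.Agent.Y738.DN

open DC

variable {H : Type*} [NormedAddCommGroup H] [InnerProductSpace ℂ H] [CompleteSpace H]

/-- chains of projections containing `0` and `1` -/
structure IsNst (N : Set (H →L[ℂ] H)) : Prop where
  proj : ∀ P ∈ N, IsStarProjection P
  zero_mem : (0 : H →L[ℂ] H) ∈ N
  one_mem : (1 : H →L[ℂ] H) ∈ N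
  total : ∀ P ∈ N, ∀ Q ∈ N, P * Q = P ∨ Q * P = Q

/-- independence: nonzero intervals have a common nonzero vector -/
def Indep {ι : Type*} (N : ι → Set (H →L[ℂ] H)) : Prop :=
  ∀ P Q : ι → (H →L[ℂ] H), (∀ i, P i ∈ N i ∧ Q i ∈ N i ∧ P i * Q i = P i ∧ P i ≠ Q i) →
    ∃ x : H, x ≠ 0 ∧ ∀ i, P i x = 0 ∧ Q i x = x

theorem nst_cross {N : Set (H →L[ℂ] H)} (hN : IsNst N) {s : H →L[ℂ] H} (hs : s ∈ N) {x y : H}
    (hx : s x = x) (hy : s y = 0) : ∀ P ∈ N, P y = 0 ∨ P x = x := by
  intro P hP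
  rcases hN.total P hP s hs with h | h
  · left
    have : (P * s) y = P y := by rw [h]
    rw [mul_app, hy, map_zero] at this
    exact this.symm
  · right
    have h2 := le_symm (hN.proj s hs) (hN.proj P hP) h
    have : (P * s) x = s x := by rw [h2]
    rw [mul_app, hx] at this
    exact this

theorem nst_le_iff {P Q : H →L[ℂ] H} (hP : IsStarProjection P) (hQ : IsStarProjection Q)
    (h1 : P * Q = P) (h2 : Q * P = Q) : P = Q := by
  rw [← h2]; exact (le_symm hP hQ h1).symm

/-- long finite chains in infinite nests -/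
theorem nst_chain {N : Set (H →L[ℂ] H)} (hN : IsNst N) (hinf : N.Infinite) (n : ℕ) :
    ∃ E : ℕ → (H →L[ℂ] H), (∀ m, m ≤ n → E m ∈ N) ∧
      ∀ m m', m < m' → m' ≤ n → E m * E m' = E m ∧ E m ≠ E m' := by
  set f : ℕ → (H →L[ℂ] H) := fun k => (hinf.natEmbedding N k : H →L[ℂ] H) with hf
  have hfN : ∀ k, f k ∈ N := fun k => (hinf.natEmbedding N k).2
  have hfi : ∀ k k', k ≠ k' → f k ≠ f k' := by
    intro k k' hk h
    exact hk ((hinf.natEmbedding N).injective (Subtype.ext h))
  have : IsTrans (H →L[ℂ] H) (fun P Q => P * Q = P) := ⟨fun P Q R h1 h2 => by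
    change P * R = P
    have h1' : P * Q = P := h1
    have h2' : Q * R = Q := h2
    calc P * R = P * Q * R := by rw [h1']
      _ = P * (Q * R) := mul_assoc _ _ _
      _ = P := by rw [h2', h1']⟩
  obtain ⟨g, hg | hg⟩ := exists_increasing_or_nonincreasing_subseq
    (fun P Q : H →L[ℂ] H => P * Q = P) f
  · refine ⟨fun m => f (g m), fun m _ => hfN _, fun m m' hm _ => ⟨hg m m' hm, ?_⟩⟩
    exact hfi _ _ (fun h => (ne_of_lt hm) (g.injective h))
  · refine ⟨fun m => f (g (n - m)), fun m _ => hfN _, fun m m' hm hm' => ⟨?_, ?_⟩⟩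
    · have h1 : n - m' < n - m := by omega
      have h2 := hg _ _ h1
      rcases hN.total _ (hfN (g (n - m'))) _ (hfN (g (n - m))) with h3 | h3
      · exact absurd h3 h2
      · exact h3
    · exact hfi _ _ (fun h => by
        have := g.injective h
        omega)

theorem up_of_lt {E : ℕ → (H →L[ℂ] H)} {n : ℕ} (pr : ∀ m, m ≤ n → IsStarProjection (E m))
    (mo : ∀ m m', m < m' → m' ≤ n → E m * E m' = E m ∧ E m ≠ E m') {m m' : ℕ} (h : m ≤ m')
    (hm : m' ≤ n) {x : H} (hx : E m x = x) : E m' x = x := by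
  rcases eq_or_lt_of_le h with rfl | h
  · exact hx
  · have h1 := le_symm (pr m (by omega)) (pr m' hm) (mo m m' h hm).1
    have h2 : (E m' * E m) x = E m x := by rw [h1]
    rw [mul_app, hx] at h2
    exact h2

theorem down_of_lt {E : ℕ → (H →L[ℂ] H)} {n : ℕ}
    (mo : ∀ m m', m < m' → m' ≤ n → E m * E m' = E m ∧ E m ≠ E m') {m m' : ℕ} (h : m ≤ m')
    (hm : m' ≤ n) {x : H} (hx : E m' x = 0) : E m x = 0 := by
  rcases eq_or_lt_of_le h with rfl | h
  · exact hx
  · have h2 : (E m * E m') x = E m x := by rw [(mo m m' h hm).1]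
    rw [mul_app, hx, map_zero] at h2
    exact h2.symm

theorem unit_vec {ι : Type*} {N : ι → Set (H →L[ℂ] H)} (hI : Indep N)
    (P Q : ι → (H →L[ℂ] H)) (h : ∀ i, P i ∈ N i ∧ Q i ∈ N i ∧ P i * Q i = P i ∧ P i ≠ Q i) :
    ∃ x : H, ‖x‖ = 1 ∧ ∀ i, P i x = 0 ∧ Q i x = x := by
  obtain ⟨x, hx0, hx⟩ := hI P Q h
  refine ⟨((‖x‖ : ℂ)⁻¹) • x, ?_, fun i => ?_⟩
  · rw [norm_smul, norm_inv, Complex.norm_real, norm_norm, inv_mul_cancel₀]
    exact norm_ne_zero_iff.mpr hx0
  · rw [map_smul, map_smul, (hx i).1, (hx i).2, smul_zero]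
    exact ⟨rfl, rfl⟩

theorem orth_cell {Q : H →L[ℂ] H} (hQ : IsStarProjection Q) {x y : H} (hx : Q x = x)
    (hy : Q y = 0) : inner ℂ x y = (0 : ℂ) := by
  rw [← hx, sp_sym hQ, hy, inner_zero_right]

/-- two infinite nests in an independent commuting family give grids of all sizes -/
theorem grids_of_indep {ι : Type*} {N : ι → Set (H →L[ℂ] H)} (hN : ∀ i, IsNst (N i))
    (hG : IsFam (⋃ i, N i)) (hI : Indep N) {a b : ι} (hab : a ≠ b) (ha : (N a).Infinite)
    (hb : (N b).Infinite) : HasGrids (AlgOf (generated (⋃ i, N i))) := by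
  classical
  intro n
  obtain ⟨E, hE1, hE2⟩ := nst_chain (hN a) ha (2 * n)
  obtain ⟨F, hF1, hF2⟩ := nst_chain (hN b) hb (2 * n)
  have hEp : ∀ m, m ≤ 2 * n → IsStarProjection (E m) := fun m hm => (hN a).proj _ (hE1 m hm)
  have hFp : ∀ m, m ≤ 2 * n → IsStarProjection (F m) := fun m hm => (hN b).proj _ (hF1 m hm)
  have h01 : (0 : H →L[ℂ] H) ≠ 1 := by
    intro h
    apply (hN a).zero_mem |> fun _ => ha
    refine Set.Finite.subset (Set.finite_singleton (0 : H →L[ℂ] H)) fun P _ => ?_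
    have : P = P * 1 := (mul_one P).symm
    rw [← h, mul_zero] at this
    exact this
  -- the pairs of intervals in the other nests
  have hother : ∀ l, ∃ lo₁ lo₂ hi₁ hi₂ : H →L[ℂ] H, lo₁ ∈ N l ∧ lo₂ ∈ N l ∧ hi₁ ∈ N l ∧ hi₂ ∈ N l ∧
      lo₁ * lo₂ = lo₁ ∧ lo₁ ≠ lo₂ ∧ hi₁ * hi₂ = hi₁ ∧ hi₁ ≠ hi₂ ∧
      ∀ x y : H, lo₂ x = x → hi₁ y = 0 → ∀ P ∈ N l, P y = 0 ∨ P x = x := by
    intro l
    by_cases h : ∃ G ∈ N l, G ≠ 0 ∧ G ≠ 1
    · obtain ⟨G, hGm, hG0, hG1⟩ := h
      exact ⟨0, G, G, 1, (hN l).zero_mem, hGm, hGm, (hN l).one_mem, zero_mul _, hG0.symm,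
        mul_one _, hG1, fun x y hx hy => nst_cross (hN l) hGm hx hy⟩
    · push Not at h
      refine ⟨0, 1, 0, 1, (hN l).zero_mem, (hN l).one_mem, (hN l).zero_mem, (hN l).one_mem,
        zero_mul _, h01, zero_mul _, h01, fun x y _ _ P hP => ?_⟩
      by_cases hP0 : P = 0
      · left; rw [hP0]; rfl
      · right; rw [h P hP hP0]; rfl
  choose lo₁ lo₂ hi₁ hi₂ hl1 hl2 hl3 hl4 hl5 hl6 hl7 hl8 hl9 using hother
  have hc : ∀ i j : ℕ, ∃ x : H, (i < n → j < n → ‖x‖ = 1 ∧ E (2 * i + 1) x = 0 ∧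
      E (2 * i + 2) x = x ∧ F (2 * j) x = 0 ∧ F (2 * j + 1) x = x ∧
      ∀ l, l ≠ a → l ≠ b → hi₁ l x = 0) := by
    intro i j
    by_cases hij : i < n ∧ j < n
    · obtain ⟨x, hx1, hx2⟩ := unit_vec hI
        (fun l => if l = a then E (2 * i + 1) else if l = b then F (2 * j) else hi₁ l)
        (fun l => if l = a then E (2 * i + 2) else if l = b then F (2 * j + 1) else hi₂ l)
        (by
          intro l
          by_cases hla : l = a
          · subst hla
            simp only [if_true]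
            have := hE2 (2 * i + 1) (2 * i + 2) (by omega) (by omega)
            exact ⟨hE1 _ (by omega), hE1 _ (by omega), this.1, this.2⟩
          · by_cases hlb : l = b
            · subst hlb
              simp only [if_neg hla, if_true]
              have := hF2 (2 * j) (2 * j + 1) (by omega) (by omega)
              exact ⟨hF1 _ (by omega), hF1 _ (by omega), this.1, this.2⟩
            · simp only [if_neg hla, if_neg hlb]
              exact ⟨hl3 l, hl4 l, hl7 l, hl8 l⟩)
      refine ⟨x, fun _ _ => ⟨hx1, ?_, ?_, ?_, ?_, ?_⟩⟩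
      · have := (hx2 a).1
        simpa using this
      · have := (hx2 a).2
        simpa using this
      · have := (hx2 b).1
        simpa [hab.symm] using this
      · have := (hx2 b).2
        simpa [hab.symm] using this
      · intro l hla hlb
        have := (hx2 l).1
        simpa [hla, hlb] using this
    · exact ⟨0, fun h1 h2 => absurd ⟨h1, h2⟩ hij⟩
  have hρ : ∀ i j : ℕ, ∃ x : H, (i < n → j < n → ‖x‖ = 1 ∧ E (2 * i) x = 0 ∧
      E (2 * i + 1) x = x ∧ F (2 * j + 1) x = 0 ∧ F (2 * j + 2) x = x ∧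
      ∀ l, l ≠ a → l ≠ b → lo₂ l x = x) := by
    intro i j
    by_cases hij : i < n ∧ j < n
    · obtain ⟨x, hx1, hx2⟩ := unit_vec hI
        (fun l => if l = a then E (2 * i) else if l = b then F (2 * j + 1) else lo₁ l)
        (fun l => if l = a then E (2 * i + 1) else if l = b then F (2 * j + 2) else lo₂ l)
        (by
          intro l
          by_cases hla : l = a
          · subst hla
            simp only [if_true]
            have := hE2 (2 * i) (2 * i + 1) (by omega) (by omega)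
            exact ⟨hE1 _ (by omega), hE1 _ (by omega), this.1, this.2⟩
          · by_cases hlb : l = b
            · subst hlb
              simp only [if_neg hla, if_true]
              have := hF2 (2 * j + 1) (2 * j + 2) (by omega) (by omega)
              exact ⟨hF1 _ (by omega), hF1 _ (by omega), this.1, this.2⟩
            · simp only [if_neg hla, if_neg hlb]
              exact ⟨hl1 l, hl2 l, hl5 l, hl6 l⟩)
      refine ⟨x, fun _ _ => ⟨hx1, ?_, ?_, ?_, ?_, ?_⟩⟩
      · have := (hx2 a).1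
        simpa using this
      · have := (hx2 a).2
        simpa using this
      · have := (hx2 b).1
        simpa [hab.symm] using this
      · have := (hx2 b).2
        simpa [hab.symm] using this
      · intro l hla hlb
        have := (hx2 l).2
        simpa [hla, hlb] using this
    · exact ⟨0, fun h1 h2 => absurd ⟨h1, h2⟩ hij⟩
  choose c hc using hc
  choose ρ hρ using hρ
  refine ⟨c, ρ, fun i hi j hj => ⟨(hc i j hi hj).1, (hρ i j hi hj).1⟩, ?_, ?_, ?_⟩
  · intro i hi j hj i' hi' j' hj' hii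
    have h1 := hc i j hi hj
    have h2 := hc i' j' hi' hj'
    have h3 := hρ i j hi hj
    have h4 := hρ i' j' hi' hj'
    constructor
    · exact orth_cell (hEp (2 * i + 2) (by omega)) h1.2.2.1
        (down_of_lt hE2 (by omega) (by omega) h2.2.1)
    · exact orth_cell (hEp (2 * i + 1) (by omega)) h3.2.2.1
        (down_of_lt hE2 (by omega) (by omega) h4.2.1)
  · intro A hA i hi j hj i' hi' j' hj' hor
    have h2 := hc i' j' hi' hj'
    have h3 := hρ i j hi hj
    rcases hor with h | h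
    · exact alg_kill hA (Set.mem_iUnion.2 ⟨b, hF1 (2 * j' + 1) (by omega)⟩)
        (hFp (2 * j' + 1) (by omega))
        (down_of_lt hF2 (by omega) (by omega) h3.2.2.2.1) h2.2.2.2.2.1
    · exact alg_kill hA (Set.mem_iUnion.2 ⟨a, hE1 (2 * i' + 2) (by omega)⟩)
        (hEp (2 * i' + 2) (by omega))
        (down_of_lt hE2 (by omega) (by omega) h3.2.1) h2.2.2.1
  · intro P hP i hi j hj i' hi' j' hj' hii hjj
    have h2 := hc i' j' hi' hj'
    have h3 := hρ i j hi hj
    refine lat_dom hG hP ?_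
    intro Q hQ
    obtain ⟨l, hl⟩ := Set.mem_iUnion.1 hQ
    by_cases hla : l = a
    · subst hla
      exact nst_cross (hN l) (hE1 (2 * i + 1) (by omega)) h3.2.2.1
        (down_of_lt hE2 (by omega) (by omega) h2.2.1) Q hl
    · by_cases hlb : l = b
      · subst hlb
        exact nst_cross (hN l) (hF1 (2 * j + 2) (by omega)) h3.2.2.2.2.1
          (down_of_lt hF2 (by omega) (by omega) h2.2.2.2.1) Q hl
      · exact hl9 l _ _ (h3.2.2.2.2.2 l hla hlb) (h2.2.2.2.2.2 l hla hlb) Q hl

theorem alg_nonempty (L : Set (H →L[ℂ] H)) : (AlgOf L).Nonempty := ⟨0, fun P _ => by simp⟩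

/-- **two infinite nests: no distance constant** -/
theorem no_constant_indep {ι : Type*} {N : ι → Set (H →L[ℂ] H)} (hN : ∀ i, IsNst (N i))
    (hG : IsFam (⋃ i, N i)) (hI : Indep N) {a b : ι} (hab : a ≠ b) (ha : (N a).Infinite)
    (hb : (N b).Infinite) : ¬ HasDistanceConstant (AlgOf (generated (⋃ i, N i))) :=
  no_constant_of_grids (alg_nonempty _) (grids_of_indep hN hG hI hab ha hb)

end Pool.Agent.Y738.DN
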