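import Pool.Agent.Y738.DN.Nests

set_option maxHeartbeats 4000000
set_option linter.unusedSectionVars false

open scoped InnerProductSpace Topology ComplexConjugate

namespace Pool.Agent.Y738.DN

open DC

variable {H : Type*} [NormedAddCommGroup H] [InnerProductSpace ℂ H] [CompleteSpace H]

/-- a form of Parrott's completion lemma, with an explicit completion -/
theorem parrott {A B C : H →L[ℂ] H} (hC : ‖C‖ < 1)
    (hcol : ∀ u, ‖A u‖ ^ 2 + ‖C u‖ ^ 2 ≤ ‖u‖ ^ 2)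
    (hrow : ∀ u v, ‖C u + B v‖ ^ 2 ≤ ‖u‖ ^ 2 + ‖v‖ ^ 2) :
    ∃ Z : H →L[ℂ] H, ∀ u v, ‖A u + A (Z (B v))‖ ^ 2 + ‖C u + B v‖ ^ 2 ≤ ‖u‖ ^ 2 + ‖v‖ ^ 2 := by
  set Cs : H →L[ℂ] H := ContinuousLinearMap.adjoint C with hCs
  have hadj : ∀ x y, inner ℂ (Cs x) y = inner ℂ x (C y) := fun x y =>
    ContinuousLinearMap.adjoint_inner_left C y x
  have hnCs : ‖Cs‖ = ‖C‖ := by
    rw [hCs]; exact LinearIsometryEquiv.norm_map _ _
  have hlt : ‖Cs * C‖ < 1 := by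
    have h1 : ‖Cs * C‖ ≤ ‖Cs‖ * ‖C‖ := norm_mul_le _ _
    have h2 : ‖Cs‖ * ‖C‖ < 1 := by
      rw [hnCs]
      have := norm_nonneg C
      nlinarith
    linarith
  obtain ⟨U, hU⟩ := isUnit_one_sub_of_norm_lt_one hlt
  set G : H →L[ℂ] H := ((U⁻¹ : (H →L[ℂ] H)ˣ) : H →L[ℂ] H) with hG
  have hUG : (1 - Cs * C) * G = 1 := by
    rw [← hU, hG]; exact Units.mul_inv U
  refine ⟨-(G * Cs), fun u v => ?_⟩
  set b : H := B v with hb
  set g : H := G (Cs b) with hg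
  have hgeq : g - Cs (C g) = Cs b := by
    have h1 : ((1 - Cs * C) * G) (Cs b) = Cs b := by rw [hUG]; rfl
    exact h1
  set w : H := b + C g with hw
  have hweq : C (Cs w) + B v = w := by
    have h1 : Cs w = g := by
      rw [hw, map_add, ← hgeq, sub_add_cancel]
    rw [h1, hw, ← hb, add_comm]
  have h1 : ‖w‖ ^ 2 ≤ ‖Cs w‖ ^ 2 + ‖v‖ ^ 2 := by
    have := hrow (Cs w) v
    rwa [hweq] at this
  have hCsw : Cs w = g := by
    rw [hw, map_add, ← hgeq, sub_add_cancel]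
  rw [hCsw] at h1
  have e1 : A u + A ((-(G * Cs)) (B v)) = A (u - g) := by
    rw [← map_add, sub_eq_add_neg]; rfl
  rw [e1]
  have h2 := hcol (u - g)
  -- inner product computations with real parts
  have key : ‖u - g‖ ^ 2 - ‖C (u - g)‖ ^ 2 + ‖C u + b‖ ^ 2 = ‖u‖ ^ 2 + ‖w‖ ^ 2 - ‖g‖ ^ 2 := by
    have r1 : ‖u - g‖ ^ 2 = ‖u‖ ^ 2 - 2 * RCLike.re (inner ℂ u g) + ‖g‖ ^ 2 :=
      @norm_sub_sq ℂ H _ _ _ u g
    have r2 : ‖C (u - g)‖ ^ 2 = ‖C u‖ ^ 2 - 2 * RCLike.re (inner ℂ (C u) (C g)) + ‖C g‖ ^ 2 := by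
      rw [map_sub]; exact @norm_sub_sq ℂ H _ _ _ (C u) (C g)
    have r3 : ‖C u + b‖ ^ 2 = ‖C u‖ ^ 2 + 2 * RCLike.re (inner ℂ (C u) b) + ‖b‖ ^ 2 :=
      @norm_add_sq ℂ H _ _ _ (C u) b
    have r4 : ‖w‖ ^ 2 = ‖b‖ ^ 2 + 2 * RCLike.re (inner ℂ b (C g)) + ‖C g‖ ^ 2 :=
      @norm_add_sq ℂ H _ _ _ b (C g)
    -- <u,g> = <u, Cs C g> + <u, Cs b> 
    have hinv : ∀ x y, inner ℂ x (Cs y) = inner ℂ (C x) y := fun x y =>
      ContinuousLinearMap.adjoint_inner_right C x y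
    have r5 : ∀ z, inner ℂ z g = inner ℂ (C z) (C g) + inner ℂ (C z) b := by
      intro z
      have h3 : inner ℂ z (g - Cs (C g)) = inner ℂ z (Cs b) := by rw [hgeq]
      rw [inner_sub_right, hinv, hinv] at h3
      rw [← h3]; ring
    have r6 : (inner ℂ g g : ℂ) = inner ℂ (C g) (C g) + inner ℂ (C g) b := r5 g
    have r7 : ‖g‖ ^ 2 = ‖C g‖ ^ 2 + RCLike.re (inner ℂ (C g) b) := by
      have h3 := congrArg RCLike.re r6
      rw [map_add, inner_self_eq_norm_sq, inner_self_eq_norm_sq] at h3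
      exact h3
    have r8 : RCLike.re (inner ℂ (C g) b) = RCLike.re (inner ℂ b (C g)) := by
      rw [← inner_conj_symm, RCLike.conj_re]
    rw [r1, r2, r3, r4, r5 u, map_add]
    linarith
  nlinarith

end Pool.Agent.Y738.DN
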