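import Pool.Agent.Y738.DN.Fin

set_option maxHeartbeats 4000000
set_option linter.unusedSectionVars false

open scoped InnerProductSpace Topology ComplexConjugate

namespace Pool.Agent.Y738.DN

open DC

section Tensor

variable {ι : Type*} [Fintype ι] [DecidableEq ι] {H : ι → Type*}
  [∀ i, NormedAddCommGroup (H i)] [∀ i, InnerProductSpace ℂ (H i)] [∀ i, CompleteSpace (H i)]
  {K : Type*} [NormedAddCommGroup K] [InnerProductSpace ℂ K] [CompleteSpace K]

/-- `K` with the map `τ` is the Hilbert space tensor product of the `H i` -/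
structure IsTens (τ : (∀ i, H i) → K) : Prop where
  inner_eq : ∀ x y, inner ℂ (τ x) (τ y) = ∏ i, (inner ℂ (x i) (y i) : ℂ)
  dense : Dense ((Submodule.span ℂ (Set.range τ) : Submodule ℂ K) : Set K)

/-- `Q = I ⊗ … ⊗ P ⊗ … ⊗ I` -/
def IsAmp (τ : (∀ i, H i) → K) (i : ι) (P : H i →L[ℂ] H i) (Q : K →L[ℂ] K) : Prop :=
  ∀ x, Q (τ x) = τ (Function.update x i (P (x i)))

/-- the ampliation of a set of operators -/
def ampSet (τ : (∀ i, H i) → K) (i : ι) (N : Set (H i →L[ℂ] H i)) : Set (K →L[ℂ] K) :=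
  {Q | ∃ P ∈ N, IsAmp τ i P Q}

variable {τ : (∀ i, H i) → K} (hτ : IsTens τ)
include hτ

/-- the product over the other coordinates -/
noncomputable def oth (i : ι) (y x : ∀ i, H i) : ℂ :=
  ∏ j ∈ Finset.univ.erase i, (inner ℂ (y j) (x j) : ℂ)

omit hτ in
theorem oth_update (i : ι) (y x : ∀ i, H i) (a : H i) :
    oth i y (Function.update x i a) = oth i y x := by
  unfold oth
  refine Finset.prod_congr rfl fun j hj => ?_
  rw [Function.update_of_ne (Finset.ne_of_mem_erase hj)]

omit hτ in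
theorem oth_update' (i : ι) (y x : ∀ i, H i) (a : H i) :
    oth i (Function.update y i a) x = oth i y x := by
  unfold oth
  refine Finset.prod_congr rfl fun j hj => ?_
  rw [Function.update_of_ne (Finset.ne_of_mem_erase hj)]

theorem inner_tau (i : ι) (y x : ∀ i, H i) :
    inner ℂ (τ y) (τ x) = (inner ℂ (y i) (x i) : ℂ) * oth i y x := by
  rw [hτ.inner_eq]
  exact (Finset.mul_prod_erase Finset.univ (fun j => (inner ℂ (y j) (x j) : ℂ))
    (Finset.mem_univ i)).symm

theorem inner_upd (i : ι) (y x : ∀ i, H i) (a : H i) :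
    inner ℂ (τ y) (τ (Function.update x i a)) = (inner ℂ (y i) a : ℂ) * oth i y x := by
  rw [inner_tau hτ i, Function.update_self, oth_update]

theorem eq_zero_of_inner {d : K} (h : ∀ y, inner ℂ (τ y) d = (0 : ℂ)) : d = 0 := by
  have h1 : (innerSL ℂ d : K →L[ℂ] ℂ) = 0 := by
    refine ContinuousLinearMap.ext_on hτ.dense ?_
    rintro _ ⟨y, rfl⟩
    change inner ℂ d (τ y) = 0
    rw [← inner_conj_symm, h y, map_zero]
  have h2 : (innerSL ℂ d : K →L[ℂ] ℂ) d = 0 := by rw [h1]; rfl
  exact inner_self_eq_zero.1 h2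

theorem upd_add (i : ι) (x : ∀ i, H i) (a b : H i) :
    τ (Function.update x i (a + b)) = τ (Function.update x i a) + τ (Function.update x i b) := by
  rw [← sub_eq_zero]
  refine eq_zero_of_inner hτ fun y => ?_
  rw [inner_sub_right, inner_add_right, inner_upd hτ, inner_upd hτ, inner_upd hτ,
    inner_add_right]
  ring

theorem upd_zero (i : ι) (x : ∀ i, H i) : τ (Function.update x i 0) = 0 := by
  refine eq_zero_of_inner hτ fun y => ?_
  rw [inner_upd hτ, inner_zero_right, zero_mul]

theorem amp_unique {i : ι} {P : H i →L[ℂ] H i} {Q Q' : K →L[ℂ] K} (h : IsAmp τ i P Q)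
    (h' : IsAmp τ i P Q') : Q = Q' := by
  refine ContinuousLinearMap.ext_on hτ.dense ?_
  rintro _ ⟨y, rfl⟩
  rw [h y, h' y]

theorem amp_exists {i : ι} {P : H i →L[ℂ] H i} (hP : IsStarProjection P) :
    ∃ Q : K →L[ℂ] K, IsStarProjection Q ∧ IsAmp τ i P Q := by
  set S : Set K := {z | ∃ x : ∀ i, H i, P (x i) = x i ∧ z = τ x} with hS
  set V : Submodule ℂ K := (Submodule.span ℂ S).topologicalClosure with hV
  haveI : CompleteSpace V := (Submodule.isClosed_topologicalClosure _).completeSpace_coe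
  refine ⟨V.starProjection, isStarProjection_starProjection, fun x => ?_⟩
  have hmem : τ (Function.update x i (P (x i))) ∈ V := by
    refine Submodule.le_topologicalClosure _ (Submodule.subset_span ?_)
    refine ⟨Function.update x i (P (x i)), ?_, rfl⟩
    rw [Function.update_self, sp_idem hP]
  refine Submodule.eq_starProjection_of_mem_orthogonal hmem ?_
  have h1 : τ x - τ (Function.update x i (P (x i))) = τ (Function.update x i (x i - P (x i))) := by
    have h2 := upd_add hτ i x (P (x i)) (x i - P (x i))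
    rw [add_sub_cancel, Function.update_eq_self] at h2
    rw [h2, add_sub_cancel_left]
  rw [h1, hV, Submodule.orthogonal_closure, Submodule.mem_orthogonal]
  intro u hu
  induction hu using Submodule.span_induction with
  | mem z hz =>
    obtain ⟨y, hy, rfl⟩ := hz
    rw [inner_upd hτ]
    have h3 : (inner ℂ (y i) (x i - P (x i)) : ℂ) = 0 := by
      rw [← hy, sp_sym hP, map_sub, sp_idem hP, sub_self, inner_zero_right]
    rw [h3, zero_mul]
  | zero => exact inner_zero_left _
  | add a b _ _ ha hb => rw [inner_add_left, ha, hb, add_zero]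
  | smul c a _ ha => rw [inner_smul_left, ha, mul_zero]

theorem amp_proj {i : ι} {P : H i →L[ℂ] H i} (hP : IsStarProjection P) {Q : K →L[ℂ] K}
    (h : IsAmp τ i P Q) : IsStarProjection Q := by
  obtain ⟨Q', h1, h2⟩ := amp_exists hτ hP
  rw [amp_unique hτ h h2]
  exact h1

omit hτ in
theorem amp_mul {i : ι} {P P' : H i →L[ℂ] H i} {Q Q' : K →L[ℂ] K} (h : IsAmp τ i P Q)
    (h' : IsAmp τ i P' Q') : IsAmp τ i (P * P') (Q * Q') := by
  intro x
  change Q (Q' (τ x)) = τ (Function.update x i (P (P' (x i))))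
  rw [h' x, h, Function.update_self, Function.update_idem]

theorem amp_zero (i : ι) : IsAmp τ i 0 (0 : K →L[ℂ] K) := by
  intro x
  change 0 = τ (Function.update x i 0)
  rw [upd_zero hτ]

omit hτ in
theorem amp_one (i : ι) : IsAmp τ i 1 (1 : K →L[ℂ] K) := by
  intro x
  change τ x = τ (Function.update x i (x i))
  rw [Function.update_eq_self]

omit hτ in
theorem amp_comm {i j : ι} (hij : i ≠ j) {P : H i →L[ℂ] H i} {P' : H j →L[ℂ] H j}
    {Q Q' : K →L[ℂ] K} (hd : Dense ((Submodule.span ℂ (Set.range τ) : Submodule ℂ K) : Set K))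
    (h : IsAmp τ i P Q) (h' : IsAmp τ j P' Q') : Q * Q' = Q' * Q := by
  refine ContinuousLinearMap.ext_on hd ?_
  rintro _ ⟨x, rfl⟩
  change Q (Q' (τ x)) = Q' (Q (τ x))
  rw [h' x, h x, h, h', Function.update_of_ne hij, Function.update_of_ne hij.symm,
    Function.update_comm hij]

theorem tau_ne_zero {x : ∀ i, H i} (hx : ∀ i, x i ≠ 0) : τ x ≠ 0 := by
  intro h
  have h1 : inner ℂ (τ x) (τ x) = (0 : ℂ) := by rw [h, inner_zero_left]
  rw [hτ.inner_eq, Finset.prod_eq_zero_iff] at h1
  obtain ⟨i, _, hi⟩ := h1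
  exact hx i (inner_self_eq_zero.1 hi)

theorem amp_inj [∀ i, Nontrivial (H i)] {i : ι} {P P' : H i →L[ℂ] H i} {Q : K →L[ℂ] K}
    (h : IsAmp τ i P Q) (h' : IsAmp τ i P' Q) : P = P' := by
  refine ContinuousLinearMap.ext fun u => ?_
  choose w hw using fun j => exists_ne (0 : H j)
  have h1 : τ (Function.update w i (P u)) = τ (Function.update w i (P' u)) := by
    have h2 := h (Function.update w i u)
    have h3 := h' (Function.update w i u)
    rw [Function.update_self, Function.update_idem] at h2 h3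
    rw [← h2, ← h3]
  by_contra hne
  have h4 : P u - P' u ≠ 0 := sub_ne_zero.2 hne
  have h5 : τ (Function.update w i (P u - P' u)) = 0 := by
    have h6 := upd_add hτ i w (P' u) (P u - P' u)
    rw [add_sub_cancel, h1] at h6
    exact left_eq_add.1 h6
  refine tau_ne_zero hτ (x := Function.update w i (P u - P' u)) ?_ h5
  intro j
  by_cases hj : j = i
  · subst hj
    rw [Function.update_self]; exact h4
  · rw [Function.update_of_ne hj]; exact hw j

theorem ampSet_nst {i : ι} {N : Set (H i →L[ℂ] H i)} (hN : IsNst N) : IsNst (ampSet τ i N) := by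
  refine ⟨?_, ⟨0, hN.zero_mem, amp_zero hτ i⟩, ⟨1, hN.one_mem, amp_one i⟩, ?_⟩
  · rintro Q ⟨P, hP, h⟩
    exact amp_proj hτ (hN.proj P hP) h
  · rintro Q ⟨P, hP, h⟩ Q' ⟨P', hP', h'⟩
    rcases hN.total P hP P' hP' with h1 | h1
    · left
      have := amp_mul h h'
      rw [h1] at this
      exact amp_unique hτ this h
    · right
      have := amp_mul h' h
      rw [h1] at this
      exact amp_unique hτ this h'

theorem ampSet_finite [∀ i, Nontrivial (H i)] {i : ι} {N : Set (H i →L[ℂ] H i)} (hN : IsNst N) :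
    (ampSet τ i N).Finite ↔ N.Finite := by
  classical
  have hex : ∀ P ∈ N, ∃ Q : K →L[ℂ] K, IsAmp τ i P Q := fun P hP => by
    obtain ⟨Q, _, h⟩ := amp_exists hτ (hN.proj P hP)
    exact ⟨Q, h⟩
  set F : (H i →L[ℂ] H i) → (K →L[ℂ] K) := fun P =>
    if h : ∃ Q : K →L[ℂ] K, IsAmp τ i P Q then h.choose else 0 with hF
  have hFP : ∀ P ∈ N, IsAmp τ i P (F P) := by
    intro P hP
    have h := hex P hP
    simp only [hF, dif_pos h]
    exact h.choose_spec
  have himg : ampSet τ i N = F '' N := by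
    ext Q
    constructor
    · rintro ⟨P, hP, h⟩
      exact ⟨P, hP, amp_unique hτ (hFP P hP) h⟩
    · rintro ⟨P, hP, rfl⟩
      exact ⟨P, hP, hFP P hP⟩
  rw [himg]
  refine Set.finite_image_iff ?_
  intro P hP P' hP' h
  have h1 := hFP P hP
  have h2 := hFP P' hP'
  rw [h] at h1
  exact amp_inj hτ h1 h2

theorem amp_fam {N : ∀ i, Set (H i →L[ℂ] H i)} (hN : ∀ i, IsNst (N i)) :
    IsFam (⋃ i, ampSet τ i (N i)) := by
  refine ⟨?_, ?_⟩
  · intro Q hQ
    obtain ⟨i, hi⟩ := Set.mem_iUnion.1 hQ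
    exact (ampSet_nst hτ (hN i)).proj Q hi
  · intro Q hQ Q' hQ'
    obtain ⟨i, hi⟩ := Set.mem_iUnion.1 hQ
    obtain ⟨j, hj⟩ := Set.mem_iUnion.1 hQ'
    by_cases hij : i = j
    · subst hij
      have h1 := ampSet_nst hτ (hN i)
      exact (fam_of_chain h1.proj h1.total).comm Q hi Q' hj
    · obtain ⟨P, _, h⟩ := hi
      obtain ⟨P', _, h'⟩ := hj
      exact amp_comm hij hτ.dense h h'

theorem amp_indep {N : ∀ i, Set (H i →L[ℂ] H i)} (hN : ∀ i, IsNst (N i)) :
    Indep (fun i => ampSet τ i (N i)) := by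
  intro A B hAB
  have h1 : ∀ i, ∃ v : H i, v ≠ 0 ∧ ∃ P P' : H i →L[ℂ] H i, IsAmp τ i P (A i) ∧
      IsAmp τ i P' (B i) ∧ P v = 0 ∧ P' v = v := by
    intro i
    obtain ⟨⟨P, hP, h⟩, ⟨P', hP', h'⟩, h2, h3⟩ := hAB i
    have hPP' : P * P' = P := by
      rcases (hN i).total P hP P' hP' with h4 | h4
      · exact h4
      · exfalso
        have h5 := amp_mul h' h
        rw [h4] at h5
        have h6 := amp_unique hτ h5 h'
        exact h3 (nst_le_iff (amp_proj hτ ((hN i).proj P hP) h)
          (amp_proj hτ ((hN i).proj P' hP') h') h2 h6)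
    have hne : P ≠ P' := by
      rintro rfl
      exact h3 (amp_unique hτ h h')
    have h6 : ∃ u, P' u - P u ≠ 0 := by
      by_contra hcon
      push Not at hcon
      exact hne (ContinuousLinearMap.ext fun u => (sub_eq_zero.1 (hcon u)).symm)
    obtain ⟨u, hu⟩ := h6
    have hP'P : P' * P = P := le_symm ((hN i).proj P hP) ((hN i).proj P' hP') hPP'
    refine ⟨P' u - P u, hu, P, P', h, h', ?_, ?_⟩
    · have e1 : P (P' u) = P u := by
        have : (P * P') u = P u := by rw [hPP']
        exact this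
      rw [map_sub, e1, sp_idem ((hN i).proj P hP), sub_self]
    · have e1 : P' (P u) = P u := by
        have : (P' * P) u = P u := by rw [hP'P]
        exact this
      rw [map_sub, e1, sp_idem ((hN i).proj P' hP')]
  choose v hv P P' h2 h3 h4 h5 using h1
  refine ⟨τ v, tau_ne_zero hτ hv, fun i => ⟨?_, ?_⟩⟩
  · rw [h2 i v, h4, upd_zero hτ]
  · rw [h3 i v, h5, Function.update_eq_self]

/-- **classification for tensor products of nests** -/
theorem tensor_iff [∀ i, Nontrivial (H i)] {N : ∀ i, Set (H i →L[ℂ] H i)}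
    (hN : ∀ i, IsNst (N i)) :
    HasDistanceConstant (AlgOf (generated (⋃ i, ampSet τ i (N i)))) ↔
      ∀ a b, a ≠ b → (N a).Finite ∨ (N b).Finite := by
  rw [constant_iff (fun i => ampSet_nst hτ (hN i)) (amp_fam hτ hN) (amp_indep hτ hN)]
  simp only [ampSet_finite hτ (hN _)]

end Tensor

end Pool.Agent.Y738.DN
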